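import Pool.Agent.H58.FL.Defs

/-!
MP_6a7a6f_gt, lower bound for the filling radius of complex projective spaces: targets of the
board flb_modules.
-/

open Topology

namespace Pool.Agent.H58.FL

open Pool.Agent.H59 Pool.Agent.H48.FR

noncomputable section

/-! ## A. Cochains -/

/-- LOW: coboundaries in low degrees, and dependence on the first terms. -/
def T_LOW : Prop := ∀ (X : Type),
  (∀ (θ : X → X → ℝ) x, dl 1 (c1 θ) x = d1 θ (x 0) (x 1) (x 2)) ∧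
  (∀ (g : X → X → X → ℝ) x, dl 2 (c2 g) x = d2 g (x 0) (x 1) (x 2) (x 3)) ∧
  (∀ (ξ : X → X → X → X → ℝ) x, dl 3 (c3 ξ) x = d3 ξ (x 0) (x 1) (x 2) (x 3) (x 4)) ∧
  (∀ (θ : X → X → ℝ), Dep 1 (c1 θ)) ∧ (∀ (g : X → X → X → ℝ), Dep 2 (c2 g)) ∧
  (∀ (ξ : X → X → X → X → ℝ), Dep 3 (c3 ξ)) ∧
  (∀ (p q : ℕ) (α β : Coc X), Dep p α → Dep q β → Dep (p + q) (cup p α β)) ∧
  (∀ (k : ℕ) (α : Coc X), Dep k α → Dep (k + 1) (dl k α)) ∧
  (∀ L : List (X → X → X → ℝ), Dep (2 * L.length) (PL L)) ∧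
  (∀ (θ : X → X → ℝ) (x y z w : X), d2 (fun a b c => d1 θ a b c) x y z w = 0) ∧
  (∀ (L L' : List (X → X → X → ℝ)), PL (L ++ L') = cup (2 * L.length) (PL L) (PL L'))

/-- LEI: the Leibniz rule. -/
def T_LEI : Prop := ∀ (X : Type) (p q : ℕ) (α β : Coc X), Dep p α → ∀ x,
  dl (p + q) (cup p α β) x =
    dl p α x * β (sh (p + 1) x) + (-1) ^ p * (α x * dl q β (sh p x))

/-- EVB: evaluation on a boundary. -/
def T_EVB : Prop := ∀ (X : Type) (k : ℕ) (α : Coc X) (b : LL (k + 2) X), Dep k α →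
  ev k α (bdL (k + 1) X b) = ev (k + 1) (dl k α) b

/-- EVL: linearity of the evaluation, integrality. -/
def T_EVL : Prop := ∀ (X : Type) (k : ℕ),
  (∀ (α : Coc X) (c c' : LL (k + 1) X), ev k α (c + c') = ev k α c + ev k α c') ∧
  (∀ (α : Coc X) (r : ℤ) (c : LL (k + 1) X), ev k α (r • c) = r * ev k α c) ∧
  (∀ (α β : Coc X) (a : ℝ) (c : LL (k + 1) X),
    ev k (fun x => α x + a * β x) c = ev k α c + a * ev k β c) ∧
  (∀ (ι : Type) (s : Finset ι) (α : ι → Coc X) (c : LL (k + 1) X),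
    ev k (fun x => ∑ i ∈ s, α i x) c = ∑ i ∈ s, ev k (α i) c) ∧
  (∀ (α β : Coc X) (c : LL (k + 1) X), (∀ t ∈ c.support, α (ex t) = β (ex t)) →
    ev k α c = ev k β c) ∧
  (∀ (α : Coc X) (c : LL (k + 1) X), (∀ t ∈ c.support, ∃ r : ℤ, α (ex t) = r) →
    ∃ N : ℤ, ev k α c = N) ∧
  (∀ (α : Coc X) (Y : Type) (φ : Y → X) (c : LL (k + 1) Y),
    ev k α (mapL (k + 1) φ c) = ev k (fun y => α (fun i => φ (y i))) c)

/-- CPL: products of closed cochains of degree two are closed. -/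
def T_CPL : Prop := ∀ (X : Type) (K : Set (Set X)), Down K → ∀ (L : List (X → X → X → ℝ)),
  (∀ g ∈ L, Cl2 K g) → ∀ x : ℕ → X, fs (2 * L.length + 1) x ∈ K → dl (2 * L.length) (PL L) x = 0

/-- ZA: a product with an exact factor of degree two vanishes on cycles. -/
def T_ZA : Prop := ∀ (X : Type) (K : Set (Set X)), Down K →
  ∀ (n : ℕ) (L L' : List (X → X → X → ℝ)) (θ : X → X → ℝ), L.length + 1 + L'.length = n →
  (∀ g ∈ L, Cl2 K g) → (∀ g ∈ L', Cl2 K g) → ∀ z : LL (2 * n + 1) X, On K z →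
  bdL (2 * n) X z = 0 → ev (2 * n) (PL (L ++ d1 θ :: L')) z = 0

/-- ZB: two adjacent factors may be changed by an exact cochain of degree four. -/
def T_ZB : Prop := ∀ (X : Type) (K : Set (Set X)), Down K →
  ∀ (n : ℕ) (L L' : List (X → X → X → ℝ)) (g h g' h' : X → X → X → ℝ)
    (ξ : X → X → X → X → ℝ), L.length + 2 + L'.length = n →
  (∀ g ∈ L, Cl2 K g) → (∀ g ∈ L', Cl2 K g) →
  (∀ S ∈ K, ∀ x ∈ S, ∀ y ∈ S, ∀ z ∈ S, ∀ w ∈ S, ∀ v ∈ S,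
    g x y z * h z w v - g' x y z * h' z w v = d3 ξ x y z w v) →
  ∀ z : LL (2 * n + 1) X, On K z → bdL (2 * n) X z = 0 →
  ev (2 * n) (PL (L ++ g :: h :: L')) z = ev (2 * n) (PL (L ++ g' :: h' :: L')) z

/-- PRM: closed factors of degree two may be permuted. -/
def T_PRM : Prop := ∀ (X : Type) (K : Set (Set X)), Down K →
  ∀ (n : ℕ) (L L' : List (X → X → X → ℝ)), L.Perm L' → L.length = n → (∀ g ∈ L, Cl2 K g) →
  ∀ z : LL (2 * n + 1) X, On K z → bdL (2 * n) X z = 0 →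
  ev (2 * n) (PL L) z = ev (2 * n) (PL L') z

/-- AA: if `φφ` is exact and `(f - φ)^n` vanishes on the cycle `z` then `f^n = n φ f^(n-1)`. -/
def T_AA : Prop := ∀ (X : Type) (K : Set (Set X)), Down K →
  ∀ (n : ℕ) (f φ : X → X → X → ℝ) (ξ : X → X → X → X → ℝ), 1 ≤ n → Cl2 K f → Cl2 K φ →
  (∀ S ∈ K, ∀ x ∈ S, ∀ y ∈ S, ∀ z ∈ S, ∀ w ∈ S, ∀ v ∈ S,
    φ x y z * φ z w v = d3 ξ x y z w v) →
  ∀ z : LL (2 * n + 1) X, On K z → bdL (2 * n) X z = 0 →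
  ev (2 * n) (PL (List.replicate n (fun a b c => f a b c - φ a b c))) z = 0 →
  ev (2 * n) (PL (List.replicate n f)) z =
    n * ev (2 * n) (PL (φ :: List.replicate (n - 1) f)) z

/-- AB: `2 φ f^(n-1)` may be replaced by an integral cochain. -/
def T_AB : Prop := ∀ (X : Type) (K : Set (Set X)), Down K →
  ∀ (n : ℕ) (f φ : X → X → X → ℝ) (θ lam : X → X → ℝ), 1 ≤ n → Cl2 K f → Cl2 K φ →
  ∀ z : LL (2 * n + 1) X, On K z → bdL (2 * n) X z = 0 →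
  2 * ev (2 * n) (PL (φ :: List.replicate (n - 1) f)) z =
    ev (2 * n) (PL ((fun a b c => 2 * φ a b c - d1 lam a b c) ::
      List.replicate (n - 1) (fun a b c => f a b c - d1 θ a b c))) z

/-- the primitive of `sg3 sg3` on labels, times 16 / 48 -/
def x4 (a b c d : Fin 4) : ℤ :=
  if a ≠ b ∧ b ≠ c ∧ a ≠ c ∧ d = a then 1
  else if a ≠ b ∧ c = a ∧ d ≠ a ∧ d ≠ b then -1 else 0

/-- one half if the labels are different, times two -/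
def x2 (a b : Fin 4) : ℤ := if a = b then 0 else 1

/-- LAB: identities for the labels. -/
def T_LAB : Prop :=
  (∀ a b c d : Fin 4, sg3 b c d - sg3 a c d + sg3 a b d - sg3 a b c = 4 * sg4 a b c d) ∧
  (∀ a b c d e l : Fin 4, l ≠ a → l ≠ b → l ≠ c → l ≠ d → l ≠ e →
    3 * (sg3 a b c * sg3 c d e) =
      x4 b c d e - x4 a c d e + x4 a b d e - x4 a b c e + x4 a b c d) ∧
  (∀ a b c : Fin 4, Even (sg3 a b c - (x2 b c - x2 a c + x2 a b))) ∧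
  (∀ a b c d : Fin 4, sg4 a b c d ≠ 0 ↔ a ≠ b ∧ a ≠ c ∧ a ≠ d ∧ b ≠ c ∧ b ≠ d ∧ c ≠ d) ∧
  (∀ a b c d : Fin 4, sg4 b a c d = -sg4 a b c d ∧ sg4 a c b d = -sg4 a b c d ∧
    sg4 a b d c = -sg4 a b c d ∧ |sg4 a b c d| ≤ 1) ∧
  (∀ (a b c d : Fin 4) (g : Equiv.Perm (Fin 4)),
    sg4 (g a) (g b) (g c) (g d) = ((Equiv.Perm.sign g : ℤˣ) : ℤ) * sg4 a b c d) ∧
  (∀ (a b c : Fin 4) (g : Equiv.Perm (Fin 4)), Equiv.Perm.sign g = 1 →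
    sg3 (g a) (g b) (g c) = sg3 a b c ∧ x2 (g a) (g b) = x2 a b) ∧
  (∀ a : Fin 4, sg3 a a a = 0 ∧ x2 a a = 0) ∧
  (∀ a b c d a' b' c' d' : Fin 4, sg4 a b c d ≠ 0 → sg4 a' b' c' d' = sg4 a b c d →
    ∃ g : Equiv.Perm (Fin 4), Equiv.Perm.sign g = 1 ∧ g a = a' ∧ g b = b' ∧ g c = c' ∧ g d = d') ∧
  (∀ (a b : Fin 4) (g : Equiv.Perm (Fin 4)), Equiv.Perm.sign g = 1 → a ≠ b → g a = a → g b = b →
    g = 1)

/-- the labelled sets whose monopole number is the sign of the labels -/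
def KA {X : Type} (V : Set (Set X)) (m : X → X → X → X → ℤ) : Set (Set (X × Fin 4)) :=
  {S | Prod.fst '' S ∈ V ∧ ∀ x ∈ S, ∀ y ∈ S, ∀ z ∈ S, ∀ w ∈ S,
    m x.1 y.1 z.1 w.1 = sg4 x.2 y.2 z.2 w.2}

/-- the labelled sets without monopoles -/
def KB {X : Type} (V : Set (Set X)) (m : X → X → X → X → ℤ) : Set (Set (X × Fin 4)) :=
  {S | S ∈ KA V m ∧ ∀ x ∈ S, ∀ y ∈ S, ∀ z ∈ S, ∀ w ∈ S, m x.1 y.1 z.1 w.1 = 0}

/-- LFT: the twelve labellings of a chain of simplices with monopoles. -/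
def T_LFT : Prop := ∀ (X : Type) (V : Set (Set X)), Down V → ∀ (m : X → X → X → X → ℤ),
  (∀ S ∈ V, (∃ x ∈ S, ∃ y ∈ S, ∃ z ∈ S, ∃ w ∈ S, m x y z w ≠ 0) →
    ∃ c : X → Fin 4, ∀ x ∈ S, ∀ y ∈ S, ∀ z ∈ S, ∀ w ∈ S, m x y z w = sg4 (c x) (c y) (c z) (c w)) →
  ∀ (k : ℕ) (b : LL (k + 2) X), On V b →
  (∀ t ∈ b.support, ∃ i j k l, m (t i) (t j) (t k) (t l) ≠ 0) →
  (∀ t ∈ (bdL (k + 1) X b).support, ∀ i j k l, m (t i) (t j) (t k) (t l) = 0) →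
  ∃ bb : LL (k + 2) (X × Fin 4), mapL (k + 2) Prod.fst bb = (12 : ℤ) • b ∧ On (KA V m) bb ∧
    On (KB V m) (bdL (k + 1) (X × Fin 4) bb) ∧
    ∀ g : Equiv.Perm (Fin 4), Equiv.Perm.sign g = 1 →
      mapL (k + 2) (fun x : X × Fin 4 => (x.1, g x.2)) bb = bb

/-- TWL: an invariant chain evaluates to a multiple of twelve. -/
def T_TWL : Prop := ∀ (X : Type) (k : ℕ) (α : Coc (X × Fin 4)) (z : LL (k + 1) (X × Fin 4)),
  Dep k α →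
  (∀ g : Equiv.Perm (Fin 4), Equiv.Perm.sign g = 1 →
    mapL (k + 1) (fun x : X × Fin 4 => (x.1, g x.2)) z = z) →
  (∀ (g : Equiv.Perm (Fin 4)), Equiv.Perm.sign g = 1 → ∀ t ∈ z.support,
    α (ex fun i => ((t i).1, g (t i).2)) = α (ex t)) →
  (∀ t ∈ z.support, (∀ i j, (t i).2 = (t j).2) → α (ex t) = 0) →
  (∀ t ∈ z.support, ∃ r : ℤ, α (ex t) = r) → ∃ N : ℤ, ev k α z = 12 * N

/-- ALG: the algebraic theorem. If the monopole number is in every simplex the sign of a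
labelling with four labels, then the value of `2 f^n` on a boundary without monopoles is a
multiple of `n`. -/
def T_ALG : Prop := ∀ (X : Type) (V : Set (Set X)), Down V →
  ∀ (f : X → X → X → ℝ) (θ : X → X → ℝ) (m : X → X → X → X → ℤ),
  (∀ S ∈ V, ∀ x ∈ S, ∀ y ∈ S, ∀ z ∈ S, ∃ k : ℤ, f x y z - d1 θ x y z = k) →
  (∀ S ∈ V, ∀ x ∈ S, ∀ y ∈ S, ∀ z ∈ S, ∀ w ∈ S, d2 f x y z w = m x y z w) →
  (∀ S ∈ V, (∃ x ∈ S, ∃ y ∈ S, ∃ z ∈ S, ∃ w ∈ S, m x y z w ≠ 0) →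
    ∃ c : X → Fin 4, ∀ x ∈ S, ∀ y ∈ S, ∀ z ∈ S, ∀ w ∈ S, m x y z w = sg4 (c x) (c y) (c z) (c w)) →
  ∀ (n : ℕ), 1 ≤ n → ∀ b : LL (2 * n + 2) X, On V b →
    (∀ t ∈ (bdL (2 * n + 1) X b).support, ∀ i j k l, m (t i) (t j) (t k) (t l) = 0) →
    ∃ N : ℤ, 2 * ev (2 * n) (PL (List.replicate n f)) (bdL (2 * n + 1) X b) = n * N

/-! ## G. Geometry of the phases -/

/-- GRM: the Gram determinant of three vectors. -/
def T_GRM : Prop := ∀ (E : Type) [NormedAddCommGroup E] [InnerProductSpace ℂ E] (a b w : E),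
  ‖a‖ = 1 → ‖b‖ = 1 →
  ‖inner ℂ a w‖ ^ 2 + ‖inner ℂ b w‖ ^ 2 - 2 * (inner ℂ a b * inner ℂ b w * inner ℂ w a).re ≤
    (1 - ‖inner ℂ a b‖ ^ 2) * ‖w‖ ^ 2

/-- TRI: the phase of a triangle. -/
def T_TRI : Prop := ∀ (E : Type) [NormedAddCommGroup E] [InnerProductSpace ℂ E] (a b c : E),
  ‖a‖ = 1 → ‖b‖ = 1 → ‖c‖ = 1 → Adj (5 / 16) a b → Adj (5 / 16) b c → Adj (5 / 16) c a →
  (‖inner ℂ a b‖ ^ 2 - 3 / 8) / (5 / 8 * ‖inner ℂ a b‖) ≤ Real.cos (ar a b c) ∧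
  |ar a b c| < 9 * Real.pi / 16

/-- SYM: symmetries of the phase. -/
def T_SYM : Prop := ∀ (E : Type) [NormedAddCommGroup E] [InnerProductSpace ℂ E] (a b c : E),
  (ar b c a = ar a b c) ∧
  (|ar a b c| < Real.pi → ar b a c = -ar a b c ∧ ar a c b = -ar a b c ∧ ar c b a = -ar a b c) ∧
  (ar a a b = 0 ∧ ar a b a = 0 ∧ ar b a a = 0)

/-- INT: the monopole number is an integer; the phase is exact modulo integers. -/
def T_INT : Prop := ∀ (E : Type) [NormedAddCommGroup E] [InnerProductSpace ℂ E],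
  (∀ a b c d : E, inner ℂ a b ≠ 0 → inner ℂ a c ≠ 0 → inner ℂ a d ≠ 0 → inner ℂ b c ≠ 0 →
    inner ℂ b d ≠ 0 → inner ℂ c d ≠ 0 → ∃ k : ℤ, mn a b c d = k) ∧
  (∀ a b c : E, inner ℂ a b ≠ 0 → inner ℂ b c ≠ 0 → inner ℂ a c ≠ 0 →
    ∃ k : ℤ, ar a b c / (2 * Real.pi) - ((inner ℂ b c).arg / (2 * Real.pi) -
      (inner ℂ a c).arg / (2 * Real.pi) + (inner ℂ a b).arg / (2 * Real.pi)) = k)

/-- OPP: two vertices of a monopole are far. -/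
def T_OPP : Prop := ∀ (E : Type) [NormedAddCommGroup E] [InnerProductSpace ℂ E] (a b c d : E),
  ‖a‖ = 1 → ‖b‖ = 1 → ‖c‖ = 1 → ‖d‖ = 1 → Adj (5 / 16) a b → Adj (5 / 16) a c → Adj (5 / 16) a d → Adj (5 / 16) b c → Adj (5 / 16) b d →
  Adj (5 / 16) c d → mn a b c d ≠ 0 → Far a b

/-- EDG: two monopoles with a common face: an edge of the face at which both phases are large. -/
def T_EDG : Prop := ∀ (E : Type) [NormedAddCommGroup E] [InnerProductSpace ℂ E] (a b c d e : E),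
  ‖a‖ = 1 → ‖b‖ = 1 → ‖c‖ = 1 → ‖d‖ = 1 → ‖e‖ = 1 → Adj (5 / 16) a b → Adj (5 / 16) a c → Adj (5 / 16) a d → Adj (5 / 16) b c →
  Adj (5 / 16) b d → Adj (5 / 16) c d → Adj (5 / 16) a e → Adj (5 / 16) b e → Adj (5 / 16) c e → mn a b c d = 1 → mn a b c e = 1 →
  23 * Real.pi / 24 ≤ ar a b d + ar a b e ∨ 23 * Real.pi / 24 ≤ ar b c d + ar b c e ∨
    23 * Real.pi / 24 ≤ ar c a d + ar c a e

/-- EXI: the main inequality: if both phases are large then the two points are near. -/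
def T_EXI : Prop := ∀ (E : Type) [NormedAddCommGroup E] [InnerProductSpace ℂ E] (a b d e : E),
  ‖a‖ = 1 → ‖b‖ = 1 → ‖d‖ = 1 → ‖e‖ = 1 → Adj (5 / 16) a b → Adj (5 / 16) a d → Adj (5 / 16) b d → Adj (5 / 16) a e → Adj (5 / 16) b e →
  Far a b → Far a d → Far b d → Far a e → Far b e → ar a b d < 9 * Real.pi / 16 →
  ar a b e < 9 * Real.pi / 16 → 23 * Real.pi / 24 ≤ ar a b d + ar a b e → ¬ Far d e

/-- EXC: two monopoles of the same sign with a common face: the opposite vertices are near. -/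
def T_EXC : Prop := ∀ (E : Type) [NormedAddCommGroup E] [InnerProductSpace ℂ E] (a b c d e : E),
  ‖a‖ = 1 → ‖b‖ = 1 → ‖c‖ = 1 → ‖d‖ = 1 → ‖e‖ = 1 → Adj (5 / 16) a b → Adj (5 / 16) a c → Adj (5 / 16) a d → Adj (5 / 16) b c →
  Adj (5 / 16) b d → Adj (5 / 16) c d → Adj (5 / 16) a e → Adj (5 / 16) b e → Adj (5 / 16) c e → mn a b c d ≠ 0 → mn a b c e = mn a b c d →
  ¬ Far d e

/-- FIV: antisymmetric tables of five rows. -/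
def T_FIV : Prop := ∀ (F : Fin 5 → Fin 5 → ℝ) (k : Fin 5 → ℤ), (∀ i j, F i j = -F j i) →
  (∀ i j, |F i j| < 9 * Real.pi / 16) → (∀ i, ∑ j, F i j = 2 * Real.pi * k i) →
  (∀ i, |k i| ≤ 1) ∧ (∑ i, k i = 0) ∧ ∀ i, k i ≠ 0 → ∃ j, j ≠ i ∧ k j = -k i ∧
    ∀ l, l ≠ i → l ≠ j → k l = 0

/-- MNP: the monopole number of a set of pairwise close unit vectors: alternating, closed, and the
exchange property. -/
def T_MNP : Prop := ∀ (E : Type) [NormedAddCommGroup E] [InnerProductSpace ℂ E] (S : Set E),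
  (∀ x ∈ S, ‖x‖ = 1) → (∀ x ∈ S, ∀ y ∈ S, Adj (5 / 16) x y) →
  ∃ m : E → E → E → E → ℤ,
  (∀ x ∈ S, ∀ y ∈ S, ∀ z ∈ S, ∀ w ∈ S, mn x y z w = m x y z w) ∧
  (∀ x ∈ S, ∀ y ∈ S, ∀ z ∈ S, ∀ w ∈ S, m y x z w = -m x y z w ∧ m x z y w = -m x y z w ∧
    m x y w z = -m x y z w ∧ |m x y z w| ≤ 1) ∧
  (∀ x ∈ S, ∀ y ∈ S, ∀ z ∈ S, ∀ w ∈ S, ∀ v ∈ S,
    m y z w v - m x z w v + m x y w v - m x y z v + m x y z w = 0) ∧
  (∀ x ∈ S, ∀ y ∈ S, ∀ z ∈ S, ∀ w ∈ S, ∀ v ∈ S, m x y z w ≠ 0 →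
    (m v y z w ≠ 0 ∧ m x v z w = 0 ∧ m x y v w = 0 ∧ m x y z v = 0) ∨
    (m v y z w = 0 ∧ m x v z w ≠ 0 ∧ m x y v w = 0 ∧ m x y z v = 0) ∨
    (m v y z w = 0 ∧ m x v z w = 0 ∧ m x y v w ≠ 0 ∧ m x y z v = 0) ∨
    (m v y z w = 0 ∧ m x v z w = 0 ∧ m x y v w = 0 ∧ m x y z v ≠ 0))

/-- CLU: clusters from the exchange property. -/
def T_CLU : Prop := ∀ (X : Type) (S : Set X) (m : X → X → X → X → ℤ) (far : X → X → Prop),
  (∀ x ∈ S, ∀ y ∈ S, ∀ z ∈ S, ∀ w ∈ S, m y x z w = -m x y z w ∧ m x z y w = -m x y z w ∧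
    m x y w z = -m x y z w ∧ |m x y z w| ≤ 1) →
  (∀ x ∈ S, ∀ y ∈ S, ∀ z ∈ S, ∀ w ∈ S, ∀ v ∈ S,
    m y z w v - m x z w v + m x y w v - m x y z v + m x y z w = 0) →
  (∀ x ∈ S, ∀ y ∈ S, ∀ z ∈ S, ∀ w ∈ S, ∀ v ∈ S, m x y z w ≠ 0 →
    (m v y z w ≠ 0 ∧ m x v z w = 0 ∧ m x y v w = 0 ∧ m x y z v = 0) ∨
    (m v y z w = 0 ∧ m x v z w ≠ 0 ∧ m x y v w = 0 ∧ m x y z v = 0) ∨
    (m v y z w = 0 ∧ m x v z w = 0 ∧ m x y v w ≠ 0 ∧ m x y z v = 0) ∨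
    (m v y z w = 0 ∧ m x v z w = 0 ∧ m x y v w = 0 ∧ m x y z v ≠ 0)) →
  (∀ x ∈ S, ∀ y ∈ S, ∀ z ∈ S, ∀ w ∈ S, m x y z w ≠ 0 → far x y) →
  (∀ x ∈ S, ∀ y ∈ S, ∀ z ∈ S, ∀ w ∈ S, ∀ v ∈ S, m x y z w ≠ 0 → m x y z v = m x y z w →
    ¬ far w v) →
  (∃ x ∈ S, ∃ y ∈ S, ∃ z ∈ S, ∃ w ∈ S, m x y z w ≠ 0) →
  ∃ c : X → Fin 4, ∀ x ∈ S, ∀ y ∈ S, ∀ z ∈ S, ∀ w ∈ S, m x y z w = sg4 (c x) (c y) (c z) (c w)

/-- SMC: sets of small diameter have no monopoles. -/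
def T_SMC : Prop := ∀ (E : Type) [NormedAddCommGroup E] [InnerProductSpace ℂ E] (a b c d : E),
  ‖a‖ = 1 → ‖b‖ = 1 → ‖c‖ = 1 → ‖d‖ = 1 → 1 / 2 ≤ ‖inner ℂ a b‖ ^ 2 →
  1 / 2 ≤ ‖inner ℂ a c‖ ^ 2 → 1 / 2 ≤ ‖inner ℂ a d‖ ^ 2 → 1 / 2 ≤ ‖inner ℂ b c‖ ^ 2 →
  1 / 2 ≤ ‖inner ℂ b d‖ ^ 2 → 1 / 2 ≤ ‖inner ℂ c d‖ ^ 2 → mn a b c d = 0

/-- GEO: the clusters of a set of pairwise close unit vectors which contains a monopole. -/
def T_GEO : Prop := Clu (5 / 16)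

/-- DIV: from clusters to the values of `2 f^n`. -/
def T_DIV : Prop := ∀ κ : ℝ, 0 < κ → Clu κ → Div κ

/-! ## T. From singular homology to the Rips complex -/

/-- VTX: the vertices of singular chains. -/
def T_VTX : Prop := ∀ (Y Z : Type) [TopologicalSpace Y] [TopologicalSpace Z] (n : ℕ),
  (∀ c : Ch ℤ (n + 1) Y, bdL n Y (vx (n + 1) c) = vx n (bd ℤ n Y c)) ∧
  (∀ (g : C(Y, Z)) (c : Ch ℤ n Y), vx n (pf ℤ n g c) = mapL n g (vx n c)) ∧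
  (∀ (K : Set (Set Y)), Down K → ∀ c : Ch ℤ n Y, (∀ σ ∈ c.support, Set.range σ ∈ K) →
    On K (vx n c))

/-- KIL: if `N` times the map on homology is zero then `N` times the image of a cycle is a
boundary. -/
def T_KIL : Prop := ∀ (Y Z : Type) [TopologicalSpace Y] [TopologicalSpace Z] (f : C(Y, Z))
  (d : ℕ) (N : ℤ), KillsN N (d + 1) f → ∀ z : Ch ℤ (d + 2) Y, bd ℤ (d + 1) Y z = 0 →
  ∃ b : Ch ℤ (d + 3) Z, bd ℤ (d + 2) Z b = N • pf ℤ (d + 2) f z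

/-- SML: subdivision makes the simplices small. -/
def T_SML : Prop := ∀ (Y Z : Type) [TopologicalSpace Y] [PseudoMetricSpace Z] (j : C(Y, Z))
  (n : ℕ) (c : Ch ℤ n Y) (δ : ℝ), 0 < δ → ∃ k₀ : ℕ, ∀ k, k₀ ≤ k → ∀ σ ∈ (SdI n k c).support,
  ∀ i i' : Fin n, dist (j (σ (vtx n i))) (j (σ (vtx n i'))) < δ

/-- SUP: subdivision preserves families of simplices. -/
def T_SUP : Prop := ∀ (Y : Type) [TopologicalSpace Y] (K : Set (Set Y)), Down K →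
  ∀ (n k : ℕ) (c : Ch ℤ n Y), (∀ σ ∈ c.support, Set.range σ ∈ K) →
  (∀ σ ∈ (SdI n k c).support, Set.range σ ∈ K) ∧
  (∀ σ ∈ (DI n k c).support, Set.range σ ∈ K)

/-- INV: the value of a product of closed cochains does not change under subdivision. -/
def T_INV : Prop := ∀ (Y : Type) [TopologicalSpace Y] (K : Set (Set Y)), Down K →
  ∀ (n : ℕ) (L : List (Y → Y → Y → ℝ)), L.length = n → (∀ g ∈ L, Cl2 K g) →
  ∀ C : Ch ℤ (2 * n + 1) Y, bd ℤ (2 * n) Y C = 0 → (∀ σ ∈ C.support, Set.range σ ∈ K) →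
  ∀ k, ev (2 * n) (PL L) (vx (2 * n + 1) (SdI (2 * n + 1) k C)) =
    ev (2 * n) (PL L) (vx (2 * n + 1) C)

/-- NBH: nearest points in the neighbourhood of the Kuratowski image. -/
def T_NBH : Prop := ∀ (M : Type) [MetricSpace M] [BoundedSpace M] (ε : ℝ) (hε : 0 < ε),
  ∃ (j : C(UE M ε, lp (fun _ : M => ℝ) ⊤)) (p : UE M ε → M), (∀ x, p (kf M ε hε x) = x) ∧
    ∀ u v : UE M ε, dist (p u) (p v) < 2 * ε + dist (j u) (j v)

/-- RPM: the unit representatives. -/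
def T_RPM : Prop := ∀ (n : ℕ),
  (∀ p : CPn n, ‖rp p‖ = 1) ∧
  (∀ p q : CPn n, ‖inner ℂ (rp p) (rp q)‖ = Real.cos (dist p q)) ∧
  (∀ (v : Fin (n + 1) → ℂ) (hv : v ≠ 0), ∃ c : ℂ, c ≠ 0 ∧ rp (mk v hv) = c • eu v) ∧
  (∀ (κ : ℝ) (p q : CPn n), 0 ≤ κ → κ ≤ 1 → dist p q < Real.arccos (2 * κ - 1) / 2 →
    Adj κ (rp p) (rp q)) ∧
  (∀ p q : CPn n, dist p q < Real.pi / 4 → 1 / 2 ≤ ‖inner ℂ (rp p) (rp q)‖ ^ 2)

/-- BRI: from a vanishing map on homology to a chain in the Rips complex. -/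
def T_BRI : Prop := ∀ (κ : ℝ), 0 ≤ κ → κ ≤ 1 → ∀ (n : ℕ) (ε : ℝ) (hε : 0 < ε) (N : ℤ), 1 ≤ n →
  ε < Real.arccos (2 * κ - 1) / 4 → KillsN N (2 * n) (kc (CPn n) ε hε) →
  ∀ C : Ch ℤ (2 * n + 1) (CPn n), bd ℤ (2 * n) (CPn n) C = 0 →
  ∃ (k : ℕ) (b : LL (2 * n + 2) (CPn n)), On (VR n κ) b ∧
    bdL (2 * n + 1) (CPn n) b = N • vx (2 * n + 1) (SdI (2 * n + 1) k C)

/-! ## F. The fundamental cycle -/

/-- FRE: a sum over a free action is divisible by the order of the group. -/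
def T_FRE : Prop := ∀ (Γ ι A : Type) [Group Γ] [Fintype Γ] [Fintype ι] [MulAction Γ ι]
  [AddCommGroup A] (t : ι → A), (∀ (γ : Γ) (i : ι), γ • i = i → γ = 1) →
  (∀ (γ : Γ) (i : ι), t (γ • i) = t i) → ∃ a : A, ∑ i, t i = (Fintype.card Γ) • a

/-- TCI: inner faces of the simplices of the subdivided cube cancel. -/
def T_TCI : Prop := ∀ (Y : Type) [TopologicalSpace Y] (d N : ℕ) (H : C(Fin d → ℝ, Y))
  (x : Fin d → Fin N) (i : Fin (d + 1)), 0 < (i : ℕ) → (i : ℕ) < d →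
  ∑ π : Equiv.Perm (Fin d),
    Finsupp.single (fc (H.comp (sx x π)) i) ((Equiv.Perm.sign π : ℤˣ) : ℤ) = (0 : Ch ℤ d Y)

/-- TCO: outer faces of the simplices of the subdivided cube cancel. -/
def T_TCO : Prop := ∀ (Y : Type) [TopologicalSpace Y] (d N : ℕ) (H : C(Fin d → ℝ, Y)), 1 ≤ d →
  Per N H → ∑ x : Fin d → Fin N, ∑ π : Equiv.Perm (Fin d),
    (Finsupp.single (fc (H.comp (sx x π)) 0) ((Equiv.Perm.sign π : ℤˣ) : ℤ) +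
      (-1 : ℤ) ^ d • Finsupp.single (fc (H.comp (sx x π)) (Fin.last d))
        ((Equiv.Perm.sign π : ℤˣ) : ℤ)) = (0 : Ch ℤ d Y)

/-- TCC: the chain of the subdivided cube is a cycle. -/
def T_TCC : Prop := ∀ (Y : Type) [TopologicalSpace Y] (d N : ℕ) (H : C(Fin d → ℝ, Y)), 1 ≤ d →
  Per N H → bd ℤ d Y (ZZ d N H) = 0

/-- TCD: the chain of the subdivided cube is divisible by `n!` if `H` is symmetric. -/
def T_TCD : Prop := ∀ (Y : Type) [TopologicalSpace Y] (n N : ℕ) (H : C(Fin (2 * n) → ℝ, Y)),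
  (∀ (ρ : Equiv.Perm (Fin n)) (y : Fin (2 * n) → ℝ), H (fun i => y (pp ρ i)) = H y) →
  ∃ C : Ch ℤ (2 * n + 1) Y, (n.factorial : ℤ) • C = ZZ (2 * n) N H

/-- CEL: the simplices of the subdivided cube are contained in the cells. -/
def T_CEL : Prop := ∀ (Y : Type) [TopologicalSpace Y] (d N : ℕ) (H : C(Fin d → ℝ, Y)),
  (∀ (x : Fin d → Fin N) (π : Equiv.Perm (Fin d)) (q : Dl (d + 1)), sx x π q ∈ cell x) ∧
  (∀ (x : Fin d → Fin N) (π : Equiv.Perm (Fin d)) (t : Fin (d + 1)),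
    sx x π (vtx (d + 1) t) = fv x π t) ∧
  (∀ σ ∈ (ZZ d N H).support, ∃ x : Fin d → Fin N, Set.range σ ⊆ H '' cell x) ∧
  (vx (d + 1) (ZZ d N H) = ∑ x : Fin d → Fin N, ∑ π : Equiv.Perm (Fin d),
    Finsupp.single (fun t => H (fv x π t)) ((Equiv.Perm.sign π : ℤˣ) : ℤ))

/-- MUL: the product of linear forms. -/
def T_MUL : Prop := ∀ (n : ℕ),
  (∀ (u : Fin n → Fin 2 → ℂ) (c : Fin n → ℂ), mu n (fun l => c l • u l) = (∏ l, c l) • mu n u) ∧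
  (∀ (u : Fin n → Fin 2 → ℂ) (ρ : Equiv.Perm (Fin n)), mu n (fun l => u (ρ l)) = mu n u) ∧
  (Continuous fun u : Fin n → Fin 2 → ℂ => mu n u) ∧
  (Continuous fun p : ℝ × ℝ => at2 p.1 p.2)

/-- CMK: continuity of the projection to projective space. -/
def T_CMK : Prop := ∀ (A : Type) [TopologicalSpace A] (n : ℕ) (v : A → Fin (n + 1) → ℂ)
  (hv : ∀ a, v a ≠ 0), Continuous v → Continuous fun a => mk (v a) (hv a)

/-- PER: the maps from the cube are periodic, symmetric, compatible. -/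
def T_PER : Prop := ∀ (n N : ℕ), 1 ≤ N →
  Per N (gY (n := n) N) ∧ Per N (gm n N) ∧
  (∀ (ρ : Equiv.Perm (Fin n)) (y : Fin (2 * n) → ℝ), gm n N (fun i => y (pp ρ i)) = gm n N y) ∧
  (∀ y : Fin (2 * n) → ℝ, gg n (gY N y) = gm n N y) ∧
  (∀ s : ℝ, aP N 0 s = aP N N s) ∧
  (∀ (y : Fin (2 * n) → ℝ) (l : Fin n), gY N y l = aP N (y (pr l 0)) (y (pr l 1)))

/-- UNI: uniform smallness of phases on cells. -/
def T_UNI : Prop := ∀ (d : ℕ) (Φ : (Fin d → ℝ) → (Fin d → ℝ) → (Fin d → ℝ) → ℂ),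
  (Continuous fun p : (Fin d → ℝ) × (Fin d → ℝ) × (Fin d → ℝ) => Φ p.1 p.2.1 p.2.2) →
  (∀ y, 0 < (Φ y y y).re ∧ (Φ y y y).im = 0) → ∀ δ > 0, ∃ N₀ : ℕ, ∀ N, N₀ ≤ N →
  ∀ x : Fin d → Fin N, ∀ y ∈ cell x, ∀ y' ∈ cell x, ∀ y'' ∈ cell x,
    Φ (fun i => y i / N) (fun i => y' i / N) (fun i => y'' i / N) ≠ 0 ∧
    |(Φ (fun i => y i / N) (fun i => y' i / N) (fun i => y'' i / N)).arg| < δ

/-- DST: the map to projective space has small oscillation on cells. -/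
def T_DST : Prop := ∀ (n : ℕ) (δ : ℝ), 0 < δ → ∃ N₀ : ℕ, ∀ N, N₀ ≤ N →
  ∀ x : Fin (2 * n) → Fin N, ∀ y ∈ cell x, ∀ y' ∈ cell x, dist (gm n N y) (gm n N y') < δ

/-- DEC: the phase cochain of projective space on a product of projective lines, modulo
integers. -/
def T_DEC : Prop := ∀ (n : ℕ) (u v w : Fin n → CPn 1),
  (∀ l, inner ℂ (rp (u l)) (rp (v l)) ≠ 0 ∧ inner ℂ (rp (v l)) (rp (w l)) ≠ 0 ∧
    inner ℂ (rp (u l)) (rp (w l)) ≠ 0) →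
  inner ℂ (rp (gg n u)) (rp (gg n v)) ≠ 0 → inner ℂ (rp (gg n v)) (rp (gg n w)) ≠ 0 →
  inner ℂ (rp (gg n u)) (rp (gg n w)) ≠ 0 →
  ∃ k : ℤ, gf n u v w - ∑ l, fl n l u v w - d1 (et n) u v w = k

/-- SMA: smallness of the phases on the cells. -/
def T_SMA : Prop := ∀ (n : ℕ) (δ : ℝ), 0 < δ → ∃ N₀ : ℕ, ∀ N, N₀ ≤ N → ∀ S ∈ KN n N,
  ∀ u ∈ S, ∀ v ∈ S, ∀ w ∈ S,
    |gf n u v w| < δ ∧ (∀ l, |fl n l u v w| < δ) ∧ |et n u v| < δ ∧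
    (∀ l, inner ℂ (rp (u l)) (rp (v l)) ≠ 0) ∧ inner ℂ (rp (gg n u)) (rp (gg n v)) ≠ 0

/-- KNC: on the cells the cochains are closed and the decomposition is exact. -/
def T_KNC : Prop := ∀ (n : ℕ), ∃ N₀ : ℕ, ∀ N, N₀ ≤ N → Cl2 (KN n N) (gf n) ∧
  (∀ l, Cl2 (KN n N) (fl n l)) ∧ ∀ S ∈ KN n N, ∀ u ∈ S, ∀ v ∈ S, ∀ w ∈ S,
    gf n u v w = ∑ l, fl n l u v w + d1 (et n) u v w

/-- EXP: expansion of a power of a sum. -/
def T_EXP : Prop := ∀ (X : Type) (n k : ℕ) (g : Fin n → X → X → X → ℝ) (x : ℕ → X),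
  PL (List.replicate k (fun a b c => ∑ l, g l a b c)) x =
    ∑ w : Fin k → Fin n, PL (List.ofFn fun i => g (w i)) x

/-- WRD: words which omit a letter. -/
def T_WRD : Prop := ∀ (n N : ℕ) (H : C(Fin (2 * n) → ℝ, Fin n → CPn 1)),
  (∀ y, H y = gY N y) → ∀ (w : Fin n → Fin n) (l : Fin n), (∀ i, w i ≠ l) →
  ev (2 * n) (PL (List.ofFn fun i => fl n (w i))) (vx (2 * n + 1) (ZZ (2 * n) N H)) = 0

/-- PRD: the product formula. -/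
def T_PRD : Prop := ∀ (n N : ℕ) (H : C(Fin (2 * n) → ℝ, Fin n → CPn 1)),
  (∀ y, H y = gY N y) → ∃ s : ℝ, (s = 1 ∨ s = -1) ∧
  ev (2 * n) (PL (List.ofFn fun i => fl n i)) (vx (2 * n + 1) (ZZ (2 * n) N H)) = s * dg N ^ n

/-- DEG: the degree of the parametrisation of the projective line. -/
def T_DEG : Prop := ∃ K₀ : ℕ, ∀ K, K₀ ≤ K → dg (2 * K) = 1 ∨ dg (2 * K) = -1

/-- TOT: the value of the power of the pulled back phase cochain. -/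
def T_TOT : Prop := ∀ (n : ℕ), ∃ N₀ : ℕ, ∀ N, N₀ ≤ N → ∀ H : C(Fin (2 * n) → ℝ, Fin n → CPn 1),
  (∀ y, H y = gY N y) →
  ev (2 * n) (PL (List.replicate n (gf n))) (vx (2 * n + 1) (ZZ (2 * n) N H)) =
    n.factorial * ev (2 * n) (PL (List.ofFn fun i => fl n i)) (vx (2 * n + 1) (ZZ (2 * n) N H))

/-- FUN: the fundamental cycle. -/
def T_FUN : Prop := ∀ (n : ℕ) (δ : ℝ), 1 ≤ n → 0 < δ → ∃ C : Ch ℤ (2 * n + 1) (CPn n),
  bd ℤ (2 * n) (CPn n) C = 0 ∧ (∀ σ ∈ C.support, Set.range σ ∈ VS n δ) ∧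
  (ev (2 * n) (PL (List.replicate n (ff n))) (vx (2 * n + 1) C) = 1 ∨
    ev (2 * n) (PL (List.replicate n (ff n))) (vx (2 * n + 1) C) = -1)

/-! ## Z. The theorem -/

/-- NUM: numerical facts. -/
def T_NUM : Prop :=
  Real.cos (9 * Real.pi / 16) < -(181 / 1000) ∧ Real.cos (23 * Real.pi / 48) ≤ 131 / 2000 ∧
  0 ≤ Real.cos (23 * Real.pi / 48) ∧ 965 / 1000 ≤ Real.cos (Real.pi / 12) ∧
  Real.arccos (-1 / 3) < Real.arccos (-3 / 8) ∧ Real.arccos (-3 / 8) < Real.pi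

/-- FIN: below the level the order of the fundamental class is a multiple of `n`, up to a
factor `2`. -/
def T_FIN : Prop := ∀ κ : ℝ, 0 < κ → κ ≤ 1 → Div κ → ∀ (n : ℕ), 1 ≤ n → ∀ (ε : ℝ) (hε : 0 < ε)
  (N : ℤ), ε < Real.arccos (2 * κ - 1) / 4 → KillsN N (2 * n) (kc (CPn n) ε hε) →
  (n : ℤ) ∣ 2 * N

end

end Pool.Agent.H58.FL
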