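import Pool.Agent.H48.FL.Coc
import Pool.Agent.H53.FL.LOW
import Pool.Agent.H53.FL.LEI
import Pool.Agent.H53.FL.EVB
import Pool.Agent.H53.FL.CPL
import Pool.Agent.H53.FL.ZA
import Pool.Agent.H16.FLB.LAB
import Pool.Agent.H65.FL.LFT
import Pool.Agent.H16.FLB.FRE
import Pool.Agent.H16.FLB.TWL
import Pool.Agent.H65.FL.ALG
import Pool.Agent.H35.FL.HTP
import Pool.Agent.H79.FL.MVL
import Pool.Agent.H13.FL.HEQ
import Pool.Agent.H72.FL.CTR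
import Pool.Agent.H67.FL.PUN
import Pool.Agent.H48.FL.Cel
import Pool.Agent.H67.FL.CPU
import Pool.Agent.H42.FL.CPG
import Pool.Agent.H49.FL.INT
import Pool.Agent.H43.FL.RPM
import Pool.Agent.H49.FL.GRM
import Pool.Agent.H13.FL.SMC
import Pool.Agent.H57.FL.EVI
import Pool.Agent.H99.FL.SML
import Pool.Agent.H53.FL.VTX
import Pool.Agent.H78.FL.SUP
import Pool.Agent.H53.FL.INV
import Pool.Agent.H57.FL.GEN
import Pool.Agent.H57.FL.KIB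
import Pool.Agent.H2.FL.MLP
import Pool.Agent.H99.FL.MUL
import Pool.Agent.H99.FL.GEP
import Pool.Agent.H89.FL.PFZ
import Pool.Agent.H5.FL.DV2
import Pool.Agent.H42.FL.ZZ0
import Pool.Agent.H78.FL.TCI
import Pool.Agent.H97.FL.TCO
import Pool.Agent.H97.FL.TCC
import Pool.Agent.H97.FL.TCD
import Pool.Agent.H63.FL.PER
import Pool.Agent.H63.FL.DST
import Pool.Agent.H40.FL.PRD
import Pool.Agent.H43.FL.UNI
import Pool.Agent.H17.FL.DEG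
import Pool.Agent.H43.FL.DEC
import Pool.Agent.H43.FL.SMA
import Pool.Agent.H43.FL.KNC
import Pool.Agent.H40.FL.WRD
import Pool.Agent.H53.FL.TOT
import Pool.Agent.H57.FL.FU2
import Pool.Agent.H74.FL.FAM
import Pool.Agent.H12.FL.GSC
import Pool.Agent.H99.FL.ISO
import Pool.Agent.H37.FL.DAT
import Pool.Agent.H37.FL.HMT
import Pool.Agent.H82.FL.BIN
import Pool.Agent.H79.FL.KIL
import Pool.Agent.H40.FL.NBH
import Pool.Agent.H2.FL.BRI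
import Pool.Agent.H37.FL.CLU
import Pool.Agent.H16.FLB.DIV
import Pool.Agent.H49.FL.NUM
import Pool.Agent.H49.FL.TRI
import Pool.Agent.H49.FL.SYM
import Pool.Agent.H49.FL.EDG
import Pool.Agent.H49.FL.OPP
import Pool.Agent.H37.FL.EXI
import Pool.Agent.H49.FL.EXC
import Pool.Agent.H99.FL.FUN
import Pool.Agent.H78.FL.FIN
import Pool.Agent.H49.FL.FIV
import Pool.Agent.H51.FL.RMO
import Pool.Agent.H51.FL.GCD
import Pool.Agent.H51.FL.FN2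
import Pool.Agent.H70.FL.MNP
import Pool.Agent.H78.FL.GEO

/-!
MP_6a7a6f_gt: composition of the rows (flb_modules,flc_modules).
-/

namespace Pool.Agent.H58.FL.A

open Pool.Agent.H58.FL

theorem aEVL : T_EVL := Pool.Agent.H48.FL.pf_EVL

theorem aLOW : T_LOW := Pool.Agent.H53.FL.pf_LOW

theorem aLEI : T_LEI := Pool.Agent.H53.FL.pf_LEI

theorem aEVB : T_EVB := Pool.Agent.H53.FL.pf_EVB

theorem aCPL : T_CPL := Pool.Agent.H53.FL.pf_CPL aLOW aLEI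

theorem aZB : T_ZB := Pool.Agent.H48.FL.pf_ZB aLOW aLEI aEVB aEVL aCPL

theorem aPRM : T_PRM := Pool.Agent.H48.FL.pf_PRM aZB

theorem aAA : T_AA := Pool.Agent.H48.FL.pf_AA aEVL aZB aPRM

theorem aZA : T_ZA := Pool.Agent.H53.FL.pf_ZA aLOW aLEI aCPL aEVB aEVL

theorem aAB : T_AB := Pool.Agent.H48.FL.pf_AB aLOW aEVL aZA

theorem aLAB : T_LAB := Pool.Agent.H16.FLB.pf_LAB

theorem aLFT : T_LFT := Pool.Agent.H65.FL.LFT.pf_LFT aLAB

theorem aFRE : T_FRE := Pool.Agent.H16.FLB.pf_FRE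

theorem aTWL : T_TWL := Pool.Agent.H16.FLB.pf_TWL aLAB aFRE

theorem aALG : T_ALG := Pool.Agent.H65.FL.pf_ALG aLOW aEVB aEVL aCPL aAA aAB aLAB aLFT aTWL

theorem aHTP : T_HTP := Pool.Agent.H35.FL.pf_HTP

theorem aMVL : T_MVL := Pool.Agent.H79.FL.MVL.pf_MVL

theorem aHEQ : T_HEQ := Pool.Agent.H13.FL.pf_HEQ aHTP

theorem aCTR : T_CTR := Pool.Agent.H72.FL.pf_CTR aHEQ

theorem aPUN : T_PUN := Pool.Agent.H67.FL.pf_PUN aHEQ aCTR aMVL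

theorem aCMK : T_CMK := Pool.Agent.H48.FL.pf_CMK

theorem aCPU : T_CPU := Pool.Agent.H67.FL.pf_CPU aHEQ aCTR aCMK

theorem aCPG : T_CPG := Pool.Agent.H42.FL.pf_CPG aMVL aPUN aCTR aCPU

theorem aINT : T_INT := Pool.Agent.H49.FL.pf_INT

theorem aRPM : T_RPM := Pool.Agent.H43.FL.pf_RPM

theorem aGRM : T_GRM := Pool.Agent.H49.FL.pf_GRM

theorem aSMC : T_SMC := Pool.Agent.H13.FL.pf_SMC aGRM aINT

theorem aEVI : T_EVI := Pool.Agent.H57.FL.pf_EVI aLOW aEVL aZA aINT aRPM aSMC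

theorem aSML : T_SML := Pool.Agent.H99.FL.pf_SML

theorem aVTX : T_VTX := Pool.Agent.H53.FL.pf_VTX

theorem aSUP : T_SUP := Pool.Agent.H78.FL.pf_SUP

theorem aINV : T_INV := Pool.Agent.H53.FL.pf_INV aVTX aSUP aCPL aEVB aEVL aLOW

theorem aGEN : T_GEN := Pool.Agent.H57.FL.pf_GEN aCPG aEVI aEVB aEVL aCPL aLOW aSML aINV aVTX aRPM aSMC

theorem aKIB : T_KIB := Pool.Agent.H57.FL.pf_KIB

theorem aMLP : T_MLP := Pool.Agent.H2.FL.pf_MLP aCMK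

theorem aMUL : T_MUL := Pool.Agent.H99.FL.pf_MUL

theorem aGEP : T_GEP := Pool.Agent.H99.FL.pf_GEP aMUL aCMK aMLP

theorem aPFZ : T_PFZ := Pool.Agent.H89.FL.pf_PFZ

theorem aDV2 : T_DV2 := Pool.Agent.H5.FL.pf_DV2 aFRE

theorem aZZ0 : T_ZZ0 := Pool.Agent.H42.FL.pf_ZZ0

theorem aTCI : T_TCI := Pool.Agent.H78.FL.pf_TCI

theorem aTCO : T_TCO := Pool.Agent.H97.FL.pf_TCO

theorem aTCC : T_TCC := Pool.Agent.H97.FL.pf_TCC aTCI aTCO

theorem aTCD : T_TCD := Pool.Agent.H97.FL.pf_TCD aFRE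

theorem aPER : T_PER := Pool.Agent.H63.FL.pf_PER aMUL

theorem aCEL : T_CEL := Pool.Agent.H48.FL.pf_CEL

theorem aDST : T_DST := Pool.Agent.H63.FL.pf_DST aMUL aCMK

theorem aPRD : T_PRD := Pool.Agent.H40.FL.pf_PRD aCEL aEVL aPER aLOW

theorem aUNI : T_UNI := Pool.Agent.H43.FL.pf_UNI

theorem aDEG : T_DEG := Pool.Agent.H17.FL.pf_DEG aINT aRPM aSMC aUNI aMUL

theorem aDEC : T_DEC := Pool.Agent.H43.FL.pf_DEC aINT aRPM

theorem aSMA : T_SMA := Pool.Agent.H43.FL.pf_SMA aMUL aRPM aUNI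

theorem aKNC : T_KNC := Pool.Agent.H43.FL.pf_KNC aINT aDEC aSMA

theorem aEXP : T_EXP := Pool.Agent.H48.FL.pf_EXP

theorem aWRD : T_WRD := Pool.Agent.H40.FL.pf_WRD aCEL aEVL

theorem aTOT : T_TOT := Pool.Agent.H53.FL.pf_TOT aTCC aPER aVTX aCEL aKNC aEVL aZA aEXP aWRD aPRM

theorem aFU2 : T_FU2 := Pool.Agent.H57.FL.pf_FU2 aEVL aTCC aTCD aPER aMUL aCMK aCEL aVTX aDST aPRD aDEG aTOT

theorem aFAM : T_FAM := Pool.Agent.H74.FL.pf_FAM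

theorem aGSC : T_GSC := Pool.Agent.H12.FL.pf_GSC aMLP

theorem aISO : T_ISO := Pool.Agent.H99.FL.pf_ISO aGSC aMLP aCMK

theorem aDAT : T_DAT := Pool.Agent.H37.FL.pf_DAT

theorem aHMT : T_HMT := Pool.Agent.H37.FL.pf_HMT aFAM aISO aDAT

theorem aBIN : T_BIN := Pool.Agent.H82.FL.pf_BIN aHTP aGEN aKIB aMLP aGEP aPFZ aDV2 aZZ0 aFU2 aTCC aHMT

theorem aKIL : T_KIL := Pool.Agent.H79.FL.pf_KIL

theorem aNBH : T_NBH := Pool.Agent.H40.FL.pf_NBH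

theorem aBRI : T_BRI := Pool.Agent.H2.FL.pf_BRI aKIL aSML aVTX aNBH aRPM

theorem aCLU : T_CLU := Pool.Agent.H37.FL.pf_CLU

theorem aDIV : T_DIV := Pool.Agent.H16.FLB.pf_DIV aINT aALG

theorem aNUM : T_NUM := Pool.Agent.H49.FL.pf_NUM

theorem aTRI : T_TRI := Pool.Agent.H49.FL.pf_TRI aGRM aNUM

theorem aSYM : T_SYM := Pool.Agent.H49.FL.pf_SYM

theorem aEDG : T_EDG := Pool.Agent.H49.FL.pf_EDG aTRI aSYM

theorem aOPP : T_OPP := Pool.Agent.H49.FL.pf_OPP aTRI aSYM aINT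

theorem aEXI : T_EXI := Pool.Agent.H37.FL.pf_EXI aGRM aNUM

theorem aEXC : T_EXC := Pool.Agent.H49.FL.pf_EXC aTRI aSYM aINT aOPP aEDG aEXI

theorem aFUN : T_FUN := Pool.Agent.H99.FL.pf_FUN aEVL aTCC aTCD aPER aMUL aCMK aCEL aVTX aDST aPRD aDEG aTOT

theorem aFIN : T_FIN := Pool.Agent.H78.FL.pf_FIN aEVL aVTX aSUP aINV aRPM aSMC aBRI aFUN

theorem aFIV : T_FIV := Pool.Agent.H49.FL.pf_FIV

theorem aRMO : T_RMO := Pool.Agent.H51.FL.pf_RMO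

theorem aGCD : T_GCD := Pool.Agent.H51.FL.pf_GCD

theorem aFN2 : T_FN2 := Pool.Agent.H51.FL.pf_FN2 aBIN aRMO aGCD

theorem aMNP : T_MNP := Pool.Agent.H70.FL.pf_MNP aTRI aSYM aINT aFIV

theorem aGEO : T_GEO := Pool.Agent.H78.FL.pf_GEO aMNP aOPP aEXC aCLU

end Pool.Agent.H58.FL.A
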