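import Pool.Agent.H58.FL.AsmA
import Pool.Agent.H90.FL.CL6
import Pool.Agent.H35.FL.NU3
import Pool.Agent.H42.FL.TR2
import Pool.Agent.H59.FLD.MN4
import Pool.Agent.H10.FL.WHE
import Pool.Agent.H22.FL.P4A
import Pool.Agent.H17.FL.P4B
import Pool.Agent.H22.FL.P4C
import Pool.Agent.H12.FL.I4
import Pool.Agent.H49.FL.W4
import Pool.Agent.H33.FL.OP2
import Pool.Agent.H40.FL.R5A
import Pool.Agent.H39.FL.R5
import Pool.Agent.H63.FL.P5A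
import Pool.Agent.H4.FL.P5B
import Pool.Agent.H33.FL.I5
import Pool.Agent.H49.FL.W5
import Pool.Agent.H13.FL.PEN
import Pool.Agent.H22.FL.HEX
import Pool.Agent.H59.FLD.TTT
import Pool.Agent.H65.FL.SX
import Pool.Agent.H48.FLD.GE2
import Pool.Agent.H89.FL.RD2

/-!
MP_6a7a6f_gt: composition of the rows (fld_modules).
-/

namespace Pool.Agent.H58.FL.A

open Pool.Agent.H58.FL

theorem aCL6 : T_CL6 := Pool.Agent.H90.FL.pf_CL6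

theorem aNU3 : T_NU3 := Pool.Agent.H35.FL.pf_NU3

theorem aTR2 : T_TR2 := Pool.Agent.H42.FL.pf_TR2 aGRM aNU3

theorem aMN4 : T_MN4 := Pool.Agent.H59.FLD.MN4.pf_MN4 aTR2

theorem aSTI : T_STI := Pool.Agent.H42.FL.pf_STI

theorem aWHE : T_WHE := Pool.Agent.H10.FL.pf_WHE aSTI

theorem aP4A : T_P4A := Pool.Agent.H22.FL.pf_P4A aNU3

theorem aP4B : T_P4B := Pool.Agent.H17.FL.pf_P4B aNU3

theorem aP4C : T_P4C := Pool.Agent.H22.FL.pf_P4C aNU3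

theorem aI4 : T_I4 := Pool.Agent.H12.FL.pf_I4 aP4A aP4B aP4C aNU3

theorem aW4 : T_W4 := Pool.Agent.H49.FL.pf_W4 aWHE aTR2 aI4 aNU3

theorem aOP2 : T_OP2 := Pool.Agent.H33.FL.pf_OP2 aTR2 aMN4 aNU3

theorem aR5A : T_R5A := Pool.Agent.H40.FL.pf_R5A aW4 aMN4 aOP2

theorem aR5 : T_R5 := Pool.Agent.H39.FL.pf_R5 aMN4 aR5A

theorem aP5A : T_P5A := Pool.Agent.H63.FL.pf_P5A aNU3

theorem aP5B : T_P5B := Pool.Agent.H4.FL.pf_P5B aNU3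

theorem aI5 : T_I5 := Pool.Agent.H33.FL.pf_I5 aP5A aP5B aNU3

theorem aW5 : T_W5 := Pool.Agent.H49.FL.pf_W5 aWHE aTR2 aI5 aNU3

theorem aPEN : T_PEN := Pool.Agent.H13.FL.pf_PEN aW5 aMN4 aOP2 aR5

theorem aHEX : T_HEX := Pool.Agent.H22.FL.pf_HEX aW4 aMN4 aOP2 aR5

theorem aTTT : T_TTT := Pool.Agent.H59.FLD.TTT.pf_TTT aW4 aMN4 aOP2 aR5

theorem aSX : T_SX := Pool.Agent.H65.FL.pf_SX aMN4 aR5 aPEN aHEX aTTT

theorem aGE2 : T_GE2 := Pool.Agent.H48.FLD.pf_GE2 aMN4 aR5 aSX aCL6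

theorem aRD2 : T_RD2 := Pool.Agent.H89.FL.pf_RD2 aNU3

end Pool.Agent.H58.FL.A
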