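import Pool.Agent.H59.Small
import Pool.Agent.H59.SingBridge
import Pool.Agent.H48.FR.St

/-!
MP_6a7a6f_gt, lower bound for the filling radius of complex projective spaces: definitions.

Cochains of ordered simplices are functions on sequences of points (a cochain of degree `k` depends
only on the first `k + 1` terms), chains are the chains `LL` on tuples of points of `H59/Affine`.
-/

open Topology

namespace Pool.Agent.H58.FL

open Pool.Agent.H59 Pool.Agent.H48.FR

noncomputable section

/-! ## cochains -/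

section coc

variable {X : Type}

/-- cochains -/
abbrev Coc (X : Type) : Type := (ℕ → X) → ℝ

/-- omit the term number `i` of a sequence -/
def om (x : ℕ → X) (i : ℕ) : ℕ → X := fun j => x (if j < i then j else j + 1)

/-- shift of a sequence -/
def sh (p : ℕ) (x : ℕ → X) : ℕ → X := fun j => x (p + j)

/-- the cochain depends only on the first `k + 1` terms -/
def Dep (k : ℕ) (α : Coc X) : Prop := ∀ x y : ℕ → X, (∀ i, i ≤ k → x i = y i) → α x = α y

/-- coboundary of a cochain of degree `k` -/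
def dl (k : ℕ) (α : Coc X) : Coc X := fun x =>
  ∑ i ∈ Finset.range (k + 2), (-1 : ℝ) ^ i * α (om x i)

/-- cup product of a cochain of degree `p` with another one -/
def cup (p : ℕ) (α β : Coc X) : Coc X := fun x => α x * β (sh p x)

/-- cochains of degrees one, two, three given by functions of the vertices -/
def c1 (θ : X → X → ℝ) : Coc X := fun x => θ (x 0) (x 1)
def c2 (g : X → X → X → ℝ) : Coc X := fun x => g (x 0) (x 1) (x 2)
def c3 (ξ : X → X → X → X → ℝ) : Coc X := fun x => ξ (x 0) (x 1) (x 2) (x 3)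

/-- coboundaries in terms of functions of the vertices -/
def d1 (θ : X → X → ℝ) (x y z : X) : ℝ := θ y z - θ x z + θ x y
def d2 (g : X → X → X → ℝ) (x y z w : X) : ℝ := g y z w - g x z w + g x y w - g x y z
def d3 (ξ : X → X → X → X → ℝ) (x y z w v : X) : ℝ :=
  ξ y z w v - ξ x z w v + ξ x y w v - ξ x y z v + ξ x y z w

/-- product of a list of cochains of degree two -/
def PL : List (X → X → X → ℝ) → Coc X
  | [] => fun _ => 1
  | g :: L => cup 2 (c2 g) (PL L)

/-- a tuple as a sequence (constant from the last term on) -/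
def ex {k : ℕ} (t : Fin (k + 1) → X) : ℕ → X := fun j => t ⟨min j k, by omega⟩

/-- evaluation of a cochain on a chain -/
def ev (k : ℕ) (α : Coc X) (c : LL (k + 1) X) : ℝ := c.sum fun t n => (n : ℝ) * α (ex t)

/-- a family of simplices: closed under subsets -/
def Down (K : Set (Set X)) : Prop := ∀ S ∈ K, ∀ T : Set X, T ⊆ S → T ∈ K

/-- the set of the first `k + 1` terms -/
def fs (k : ℕ) (x : ℕ → X) : Set X := {y | ∃ i, i ≤ k ∧ x i = y}

/-- the chain is supported in `K` -/
def On {m : ℕ} (K : Set (Set X)) (c : LL m X) : Prop := ∀ t ∈ c.support, Set.range t ∈ K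

/-- closed cochains of degree two -/
def Cl2 (K : Set (Set X)) (g : X → X → X → ℝ) : Prop :=
  ∀ S ∈ K, ∀ x ∈ S, ∀ y ∈ S, ∀ z ∈ S, ∀ w ∈ S, d2 g x y z w = 0

end coc

/-! ## labels -/

/-- twelve times the sign of four labels (zero if two of them are equal) -/
def v4 (a b c d : ℤ) : ℤ := (b - a) * (c - a) * (d - a) * (c - b) * (d - b) * (d - c)

/-- the sign of four labels -/
def sg4 (a b c d : Fin 4) : ℤ :=
  v4 ((a : ℕ) : ℤ) ((b : ℕ) : ℤ) ((c : ℕ) : ℤ) ((d : ℕ) : ℤ) / 12

/-- the sign of the missing label followed by three given labels -/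
def sg3 (a b c : Fin 4) : ℤ :=
  v4 (6 - ((a : ℕ) : ℤ) - ((b : ℕ) : ℤ) - ((c : ℕ) : ℤ)) ((a : ℕ) : ℤ) ((b : ℕ) : ℤ)
    ((c : ℕ) : ℤ) / 12

/-! ## phases -/

section geo

variable {E : Type} [NormedAddCommGroup E] [InnerProductSpace ℂ E]

/-- the phase of a triangle -/
def ar (a b c : E) : ℝ := (inner ℂ a b * inner ℂ b c * inner ℂ c a).arg

/-- the two unit vectors are close -/
def Adj (κ : ℝ) (a b : E) : Prop := κ ≤ ‖inner ℂ a b‖ ^ 2

/-- the two unit vectors are far -/
def Far (a b : E) : Prop := ‖inner ℂ a b‖ ^ 2 ≤ 9 / 20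

/-- the monopole number of four vectors, as a real number -/
def mn (a b c d : E) : ℝ := (ar b c d - ar a c d + ar a b d - ar a b c) / (2 * Real.pi)

/-- The value of `2 f^n` on boundaries in the Rips complex at the level `κ` is a multiple of `n`
(if the boundary has no monopoles). -/
def Div (κ : ℝ) : Prop := ∀ (E : Type) [NormedAddCommGroup E] [InnerProductSpace ℂ E] (X : Type)
  (v : X → E) (n : ℕ) (b : LL (2 * n + 2) X), (∀ x, ‖v x‖ = 1) → 1 ≤ n →
  On {S : Set X | ∀ x ∈ S, ∀ y ∈ S, Adj κ (v x) (v y)} b →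
  (∀ t ∈ (bdL (2 * n + 1) X b).support, ∀ i j k l, mn (v (t i)) (v (t j)) (v (t k)) (v (t l)) = 0) →
  ∃ N : ℤ, 2 * ev (2 * n) (PL (List.replicate n
    (fun x y z => ar (v x) (v y) (v z) / (2 * Real.pi)))) (bdL (2 * n + 1) X b) = n * N

/-- Clusters at the level `κ`: in a set of unit vectors which are pairwise close the monopole
number is the sign of a labelling with four labels. -/
def Clu (κ : ℝ) : Prop := ∀ (E : Type) [NormedAddCommGroup E] [InnerProductSpace ℂ E] (S : Set E),
  (∀ x ∈ S, ‖x‖ = 1) → (∀ x ∈ S, ∀ y ∈ S, Adj κ x y) →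
  (∃ x ∈ S, ∃ y ∈ S, ∃ z ∈ S, ∃ w ∈ S, mn x y z w ≠ 0) →
  ∃ c : E → Fin 4, ∀ x ∈ S, ∀ y ∈ S, ∀ z ∈ S, ∀ w ∈ S, mn x y z w = sg4 (c x) (c y) (c z) (c w)

end geo

/-! ## singular chains -/

section top

variable {Y : Type} [TopologicalSpace Y]

/-- `N` times the map induced by `f` on the singular homology in degree `d` is zero -/
def KillsN (N : ℤ) (d : ℕ) {Y Z : Type} [TopologicalSpace Y] [TopologicalSpace Z] (f : C(Y, Z)) :
    Prop :=
  N • (HZ d).map (TopCat.ofHom f) = 0

/-- the chain of the vertices of a singular chain -/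
def vx (n : ℕ) : Ch ℤ n Y →ₗ[ℤ] LL n Y := Finsupp.lmapDomain ℤ ℤ (fun σ : Smp n Y => ⇑σ ∘ vtx n)

/-- the vertex number `t` of the simplex of the subdivided cube with cell `x` and permutation `π` -/
def fv {d N : ℕ} (x : Fin d → Fin N) (π : Equiv.Perm (Fin d)) (t : Fin (d + 1)) : Fin d → ℝ :=
  fun i => ((x i : ℕ) : ℝ) + if ((π.symm i : Fin d) : ℕ) < (t : ℕ) then 1 else 0

/-- the simplex of the subdivided cube with cell `x` and permutation `π` -/
def sx {d N : ℕ} (x : Fin d → Fin N) (π : Equiv.Perm (Fin d)) : C(Dl (d + 1), Fin d → ℝ) :=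
  ⟨fun q i => ∑ t : Fin (d + 1), q t * fv x π t i, by
    refine continuous_pi fun i => continuous_finsetSum _ fun t _ => ?_
    exact ((continuous_apply t).comp continuous_subtype_val).mul continuous_const⟩

/-- the chain of the subdivided cube with `N ^ d` cells, mapped by `H` -/
def ZZ (d N : ℕ) (H : C(Fin d → ℝ, Y)) : Ch ℤ (d + 1) Y :=
  ∑ x : Fin d → Fin N, ∑ π : Equiv.Perm (Fin d),
    Finsupp.single (H.comp (sx x π)) ((Equiv.Perm.sign π : ℤˣ) : ℤ)

/-- `H` takes the same values on opposite faces of the cube of side `N` -/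
def Per {d : ℕ} (N : ℕ) (H : (Fin d → ℝ) → Y) : Prop :=
  ∀ y : Fin d → ℝ, (∀ j, 0 ≤ y j ∧ y j ≤ N) → ∀ i, y i = 0 → H (Function.update y i N) = H y

/-- the closed cell number `x` -/
def cell {d N : ℕ} (x : Fin d → Fin N) : Set (Fin d → ℝ) :=
  {y | ∀ i, ((x i : ℕ) : ℝ) ≤ y i ∧ y i ≤ ((x i : ℕ) : ℝ) + 1}

end top

/-! ## projective spaces -/

section proj

/-- a vector with coordinates in `ℂ^(n+1)` as an element of the Hilbert space -/
def eu {n : ℕ} (x : Fin (n + 1) → ℂ) : EuclideanSpace ℂ (Fin (n + 1)) := WithLp.toLp 2 x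

/-- the unit representative of a point -/
def rp {n : ℕ} (p : CPn n) : EuclideanSpace ℂ (Fin (n + 1)) :=
  ((nrm (PP.rep p))⁻¹ : ℝ) • eu (PP.rep p)

/-- the line through a nonzero vector -/
def mk {n : ℕ} (x : Fin (n + 1) → ℂ) (hx : x ≠ 0) : CPn n := PP.mk x hx

/-- the phase cochain of projective space -/
def ff (n : ℕ) (x y z : CPn n) : ℝ := ar (rp x) (rp y) (rp z) / (2 * Real.pi)

/-- the Rips complex of projective space: all pairs of points are close -/
def VR (n : ℕ) (κ : ℝ) : Set (Set (CPn n)) := {S | ∀ x ∈ S, ∀ y ∈ S, Adj κ (rp x) (rp y)}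

/-- the sets of diameter less than `δ` -/
def VS (n : ℕ) (δ : ℝ) : Set (Set (CPn n)) := {S | ∀ x ∈ S, ∀ y ∈ S, dist x y < δ}

/-- the coefficients of a product of linear forms -/
def mu (n : ℕ) (u : Fin n → Fin 2 → ℂ) : Fin (n + 1) → ℂ := fun k =>
  (∏ l : Fin n, (Polynomial.C (u l 0) + Polynomial.C (u l 1) * Polynomial.X)).coeff (k : ℕ)

/-- a parametrisation of the projective line by the square -/
def at2 (s t : ℝ) : Fin 2 → ℂ :=
  ![((max (Real.cos (Real.pi * t)) 0 : ℝ) : ℂ) -
      ((max (-Real.cos (Real.pi * t)) 0 : ℝ) : ℂ) * Complex.exp (2 * Real.pi * s * Complex.I),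
    ((Real.sin (Real.pi * t) : ℝ) : ℂ) * Complex.exp (2 * Real.pi * s * Complex.I)]

lemma at2_ne (s t : ℝ) : at2 s t ≠ 0 := by
  intro h
  have h0 := congrFun h 0
  have h1 := congrFun h 1
  have he : Complex.exp (2 * Real.pi * s * Complex.I) ≠ 0 := Complex.exp_ne_zero _
  simp only [at2, Matrix.cons_val_one, Matrix.cons_val_fin_one, Pi.zero_apply, mul_eq_zero,
    Complex.ofReal_eq_zero, he, or_false] at h1
  simp only [at2, Matrix.cons_val_zero, Pi.zero_apply] at h0
  have hc := Real.sin_sq_add_cos_sq (Real.pi * t)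
  rw [h1] at hc
  have hc' : Real.cos (Real.pi * t) = 1 ∨ Real.cos (Real.pi * t) = -1 := by
    have h2 : (Real.cos (Real.pi * t) - 1) * (Real.cos (Real.pi * t) + 1) = 0 := by
      linear_combination hc
    rcases mul_eq_zero.1 h2 with h3 | h3
    · left; linarith
    · right; linarith
  rcases hc' with hc' | hc'
  · rw [hc'] at h0
    norm_num at h0
  · rw [hc'] at h0
    norm_num at h0

lemma mu_ne {n : ℕ} {u : Fin n → Fin 2 → ℂ} (hu : ∀ l, u l ≠ 0) : mu n u ≠ 0 := by
  classical
  have hdeg : ∀ l, (Polynomial.C (u l 0) + Polynomial.C (u l 1) * Polynomial.X).natDegree ≤ 1 := by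
    intro l
    rw [add_comm]
    exact Polynomial.natDegree_linear_le
  have hne : ∀ l, (Polynomial.C (u l 0) + Polynomial.C (u l 1) * Polynomial.X) ≠ 0 := by
    intro l h
    apply hu l
    have h0 := congrArg (fun p => Polynomial.coeff p 0) h
    have h1 := congrArg (fun p => Polynomial.coeff p 1) h
    simp at h0 h1
    funext i
    fin_cases i
    · exact h0
    · exact h1
  have hP : (∏ l : Fin n, (Polynomial.C (u l 0) + Polynomial.C (u l 1) * Polynomial.X)) ≠ 0 :=
    Finset.prod_ne_zero_iff.2 fun l _ => hne l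
  have hd : (∏ l : Fin n,
      (Polynomial.C (u l 0) + Polynomial.C (u l 1) * Polynomial.X)).natDegree ≤ n := by
    refine (Polynomial.natDegree_prod_le _ _).trans ?_
    refine (Finset.sum_le_sum fun l _ => hdeg l).trans ?_
    simp
  intro h
  apply hP
  rw [← Polynomial.leadingCoeff_eq_zero, Polynomial.leadingCoeff]
  exact congrFun h ⟨_, Nat.lt_succ_of_le hd⟩

/-- the coordinate number `(l, e)` -/
def pr {n : ℕ} (l : Fin n) (e : Fin 2) : Fin (2 * n) := finProdFinEquiv (e, l)

/-- the permutation of the coordinates given by a permutation of the pairs -/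
def pp {n : ℕ} (ρ : Equiv.Perm (Fin n)) : Equiv.Perm (Fin (2 * n)) :=
  finProdFinEquiv.symm.trans ((Equiv.prodCongr (Equiv.refl (Fin 2)) ρ).trans finProdFinEquiv)

/-- the parametrisation of the product of `n` projective lines by the cube of side `N` -/
def aN {n : ℕ} (N : ℕ) (y : Fin (2 * n) → ℝ) (l : Fin n) : Fin 2 → ℂ :=
  at2 (y (pr l 0) / N) (y (pr l 1) / N)

/-- the point of the projective line with parameters `s / N`, `t / N` -/
def aP (N : ℕ) (s t : ℝ) : CPn 1 := mk (at2 (s / N) (t / N)) (at2_ne _ _)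

/-- the map from the cube to the product of `n` projective lines -/
def gY {n : ℕ} (N : ℕ) (y : Fin (2 * n) → ℝ) (l : Fin n) : CPn 1 :=
  mk (aN N y l) (at2_ne _ _)

/-- the map from the cube to projective space -/
def gm (n N : ℕ) (y : Fin (2 * n) → ℝ) : CPn n := mk (mu n (aN N y)) (mu_ne fun _ => at2_ne _ _)

/-- the map from the product of projective lines to projective space -/
def gg (n : ℕ) (u : Fin n → CPn 1) : CPn n :=
  mk (mu n fun l => PP.rep (u l)) (mu_ne fun _ => PP.rep_ne _)

/-- the phase cochain of the factor number `l` -/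
def fl (n : ℕ) (l : Fin n) (u v w : Fin n → CPn 1) : ℝ := ff 1 (u l) (v l) (w l)

/-- the phase cochain of projective space, pulled back to the product of projective lines -/
def gf (n : ℕ) (u v w : Fin n → CPn 1) : ℝ := ff n (gg n u) (gg n v) (gg n w)

/-- the inner product of two products of linear forms, divided by the product of the inner
products (up to positive factors) -/
def eR (n : ℕ) (a b : Fin n → Fin 2 → ℂ) : ℂ :=
  inner ℂ (eu (mu n a)) (eu (mu n b)) *
    ∏ l : Fin n, (starRingEnd ℂ) (inner ℂ (eu (n := 1) (a l)) (eu (n := 1) (b l)))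

/-- the one-cochain on the product of projective lines -/
def et (n : ℕ) (u v : Fin n → CPn 1) : ℝ :=
  (eR n (fun l => PP.rep (u l)) (fun l => PP.rep (v l))).arg / (2 * Real.pi)

/-- the small sets of points of the product of projective lines -/
def KN (n N : ℕ) : Set (Set (Fin n → CPn 1)) :=
  {S | ∃ x : Fin (2 * n) → Fin N, S ⊆ gY N '' cell x}

/-- the degree of the parametrisation of the projective line, computed on the grid -/
def dg (N : ℕ) : ℝ :=
  ∑ i ∈ Finset.range N, ∑ j ∈ Finset.range N,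
    (ff 1 (aP N i j) (aP N (i + 1) j) (aP N (i + 1) (j + 1)) -
      ff 1 (aP N i j) (aP N i (j + 1)) (aP N (i + 1) (j + 1)))

end proj

end

end Pool.Agent.H58.FL
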