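import Pool.Agent.H58.FL.Targets
import Pool.Agent.H48.FR.Targets

/-!
MP_6a7a6f_gt, order of the fundamental class of complex projective spaces in the neighbourhoods
of the Kuratowski image: definitions of part B (upper bounds).
-/

open Topology

namespace Pool.Agent.H58.FL

open Pool.Agent.H59 Pool.Agent.H48.FR

noncomputable section

/-! ## cycles and boundaries of singular chains (with the empty simplex: reduced homology) -/

/-- cycles; every chain of simplices with no vertices is a cycle -/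
def IsZ {Y : Type} [TopologicalSpace Y] : ∀ {n : ℕ}, Ch ℤ n Y → Prop
  | 0, _ => True
  | (n + 1), z => bd ℤ n Y z = 0

/-- every cycle of simplices with `n` vertices is a boundary -/
def Van (n : ℕ) (Y : Type) [TopologicalSpace Y] : Prop :=
  ∀ z : Ch ℤ n Y, IsZ z → ∃ b : Ch ℤ (n + 1) Y, bd ℤ n Y b = z

/-- the homology of chains of simplices with `n` vertices is cyclic -/
def Cyc (n : ℕ) (Y : Type) [TopologicalSpace Y] : Prop :=
  ∃ g : Ch ℤ n Y, IsZ g ∧ ∀ z : Ch ℤ n Y, IsZ z →
    ∃ (a : ℤ) (b : Ch ℤ (n + 1) Y), bd ℤ n Y b = z - a • g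

/-- the space `ℝ^m` without the origin -/
def Pn (m : ℕ) : Type := {x : Fin m → ℝ // x ≠ 0}

instance instPn (m : ℕ) : TopologicalSpace (Pn m) := instTopologicalSpaceSubtype

/-! ## multiplication of polynomials -/

/-- the polynomial with given coefficients -/
def po {j : ℕ} (p : Fin (j + 1) → ℂ) : Polynomial ℂ :=
  ∑ i : Fin (j + 1), Polynomial.C (p i) * Polynomial.X ^ (i : ℕ)

lemma po_coeff {j : ℕ} (p : Fin (j + 1) → ℂ) (k : ℕ) :
    (po p).coeff k = if h : k < j + 1 then p ⟨k, h⟩ else 0 := by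
  classical
  unfold po
  rw [Polynomial.finset_sum_coeff]
  simp only [Polynomial.coeff_C_mul, Polynomial.coeff_X_pow, mul_ite, mul_one, mul_zero]
  split_ifs with h
  · rw [Finset.sum_eq_single (⟨k, h⟩ : Fin (j + 1))]
    · simp
    · intro b _ hb
      rw [if_neg]
      intro hk
      exact hb (Fin.ext hk.symm)
    · intro hk
      exact absurd (Finset.mem_univ _) hk
  · refine Finset.sum_eq_zero fun i _ => ?_
    rw [if_neg]
    intro hk
    exact h (hk ▸ i.2)

lemma po_ne {j : ℕ} {p : Fin (j + 1) → ℂ} (hp : p ≠ 0) : po p ≠ 0 := by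
  intro h
  apply hp
  funext i
  have h1 := po_coeff p (i : ℕ)
  rw [h, Polynomial.coeff_zero, dif_pos i.2] at h1
  exact h1.symm

lemma po_deg {j : ℕ} (p : Fin (j + 1) → ℂ) : (po p).natDegree ≤ j := by
  rw [Polynomial.natDegree_le_iff_coeff_eq_zero]
  intro k hk
  rw [po_coeff, dif_neg (by omega)]

/-- the product of two polynomials of degrees `j` and `l` -/
def ml {j l : ℕ} (p : Fin (j + 1) → ℂ) (w : Fin (l + 1) → ℂ) : Fin (j + l + 1) → ℂ :=
  fun k => (po p * po w).coeff (k : ℕ)

lemma ml_ne {j l : ℕ} {p : Fin (j + 1) → ℂ} {w : Fin (l + 1) → ℂ} (hp : p ≠ 0) (hw : w ≠ 0) :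
    ml p w ≠ 0 := by
  intro h
  have h0 : po p * po w ≠ 0 := mul_ne_zero (po_ne hp) (po_ne hw)
  apply h0
  rw [← Polynomial.leadingCoeff_eq_zero, Polynomial.leadingCoeff]
  have hd : (po p * po w).natDegree ≤ j + l :=
    Polynomial.natDegree_mul_le.trans (Nat.add_le_add (po_deg p) (po_deg w))
  exact congrFun h ⟨_, Nat.lt_succ_of_le hd⟩

/-- multiplication of points of projective spaces -/
def mP {j l : ℕ} (x : CPn j) (y : CPn l) : CPn (j + l) :=
  mk (ml (PP.rep x) (PP.rep y)) (ml_ne (PP.rep_ne x) (PP.rep_ne y))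

/-- the first `j` factors give a point of `CP^j`, the last `l` factors give a point of `CP^l` -/
def gE (j l N : ℕ) (y : Fin (2 * (j + l)) → ℝ) : CPn l × CPn j :=
  (mk (mu l fun i => aN N y (Fin.natAdd j i)) (mu_ne fun _ => at2_ne _ _),
    mk (mu j fun i => aN N y (Fin.castAdd l i)) (mu_ne fun _ => at2_ne _ _))

/-- a permutation of the first `j` and a permutation of the last `l` elements -/
def pq {j l : ℕ} (ρ : Equiv.Perm (Fin j)) (τ : Equiv.Perm (Fin l)) : Equiv.Perm (Fin (j + l)) :=
  finSumFinEquiv.symm.trans ((Equiv.sumCongr ρ τ).trans finSumFinEquiv)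

end

end Pool.Agent.H58.FL
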