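import Pool.Agent.H58.FL.TargetsB
import Pool.Agent.H48.FR.All
import Pool.Agent.H48.FR.St

/-!
MP_6a7a6f_gt: consequences of the targets FIN, GEO, DIV, BIN, FN2 for the filling radius of the
complex projective spaces.
-/

namespace Pool.Agent.H58.FL

open Pool.Agent.H48.FR

/-- the lower level -/
lemma lvl_lt : Real.arccos (-(1 / 3)) / 4 < Real.arccos (-(3 / 8)) / 4 := by
  have h : Real.arccos (-(1 / 3)) < Real.arccos (-(3 / 8)) :=
    Real.strictAntiOn_arccos (by constructor <;> norm_num) (by constructor <;> norm_num)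
      (by norm_num)
  linarith

lemma dvd_two_mul (hF : T_FIN) (hG : T_GEO) (hD : T_DIV) (n : ℕ) (hn : 1 ≤ n) (ε : ℝ)
    (hε : 0 < ε) (hl : ε < Real.arccos (-(3 / 8)) / 4) (N : ℤ)
    (hN : KillsN N (2 * n) (kc (CPn n) ε hε)) : (n : ℤ) ∣ 2 * N := by
  refine hF (5 / 16) (by norm_num) (by norm_num) (hD (5 / 16) (by norm_num) hG) n hn ε hε N ?_ hN
  rw [show (2 * (5 / 16 : ℝ) - 1) = -(3 / 8) by norm_num]
  exact hl

lemma killsN_choose (hB : T_BIN) (n : ℕ) (j : ℕ) (hj : 1 ≤ j) (hjn : j ≤ n) (ε : ℝ) (hε : 0 < ε)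
    (hl : rad j < ε) : KillsN (n.choose j) (2 * n) (kc (CPn n) ε hε) := by
  obtain ⟨l, rfl⟩ := Nat.exists_eq_add_of_le hjn
  exact hB j l ε hε hj hl

lemma killsN_iff (hF : T_FIN) (hG : T_GEO) (hD : T_DIV) (hB : T_BIN) (n : ℕ) (hn : 1 ≤ n)
    (ho : Odd n) (ε : ℝ) (hε : 0 < ε) (h1 : rad 1 < ε) (h2 : ε < Real.arccos (-(3 / 8)) / 4)
    (N : ℤ) : KillsN N (2 * n) (kc (CPn n) ε hε) ↔ (n : ℤ) ∣ N := by
  constructor
  · intro h
    have h3 := dvd_two_mul hF hG hD n hn ε hε h2 N h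
    have hc : IsCoprime (n : ℤ) 2 := by
      have h5 : Nat.Coprime n 2 := Nat.coprime_two_right.2 ho
      exact_mod_cast Nat.isCoprime_iff_coprime.2 h5
    exact hc.dvd_of_dvd_mul_left h3
  · rintro ⟨a, rfl⟩
    have h3 := killsN_choose hB n 1 le_rfl hn ε hε h1
    rw [Nat.choose_one_right] at h3
    unfold KillsN at h3 ⊢
    rw [mul_comm (n : ℤ) a, mul_smul, h3, smul_zero]

lemma rad_lt_top {k : ℕ} (hk : 1 ≤ k) : rad k < Real.pi / 6 := (rad_pos_lt hk).2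

lemma le_fillR (hF : T_FIN) (hG : T_GEO) (hD : T_DIV) (n : ℕ) (hn : 3 ≤ n) :
    Real.arccos (-(3 / 8)) / 4 ≤ FillR (CPn n) (2 * n) := by
  have hne : {ε : ℝ | ∃ hε : 0 < ε, Kills (2 * n) (kc (CPn n) ε hε)}.Nonempty := by
    have h2 : Module.finrank ℝ ℂ = 2 := Complex.finrank_real_complex
    have hdim : Module.finrank ℝ ℂ * n < Nat.multichoose (Module.finrank ℝ ℂ) (2 * n + 1) := by
      rw [h2, Nat.multichoose_two]
      omega
    have hn1 : 1 ≤ n := by omega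
    have hp : rad n < Real.pi / 6 := rad_lt_top hn1
    have hpp := Real.pi_pos
    have h0 : 0 < Real.pi / 6 := by positivity
    have hd0 : 2 * n ≠ 0 := by omega
    have hb : Bounds (PP ℂ n) (2 * n) (Real.pi / 6) :=
      bounds_of_nullhomotopic hd0 h0 (nullhomotopic (𝕜 := ℂ) hn1 hn1 hdim h0 hp)
    have he : FillR (CPn n) (2 * n) = FillRad (PP ℂ n) (2 * n) := rfl
    obtain ⟨h0', hk⟩ := hb
    exact ⟨Real.pi / 6, h0', hk⟩
  refine le_csInf hne ?_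
  rintro ε ⟨hε, h⟩
  by_contra hlt
  have h3 : (n : ℤ) ∣ 2 * 1 := dvd_two_mul hF hG hD n (by omega) ε hε (not_le.1 hlt) 1 (by
    unfold KillsN
    rw [one_smul]
    exact h)
  have h4 : (n : ℤ) ≤ 2 * 1 := Int.le_of_dvd (by norm_num) h3
  omega

lemma fillR_le (hN : T_FN2) (n k : ℕ) (hn : 1 ≤ n) (hk : 1 ≤ k)
    (h : ∀ p : ℕ, p.Prime → p ∣ n → p ^ n.factorization p ≤ k) :
    FillR (CPn n) (2 * n) ≤ rad k := by
  have hr : 0 < rad k := (rad_pos_lt hk).1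
  refine le_of_forall_gt_imp_ge_of_dense fun ε hε => ?_
  refine csInf_le ⟨0, ?_⟩ ⟨hr.trans hε, hN n k hn hk h ε (hr.trans hε) hε⟩
  rintro δ ⟨hδ, _⟩
  exact hδ.le

end Pool.Agent.H58.FL
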