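import Pool.Agent.H58.FL.TargetsD
import Pool.Agent.H58.FL.Final

/-!
MP_6a7a6f_gt: consequences of the targets GE2, RD2 (part D) for the filling radius of the complex
projective spaces.
-/

namespace Pool.Agent.H58.FL

open Pool.Agent.H48.FR

lemma dvd_two_mul_D (hF : T_FIN) (hG : T_GE2) (hD : T_DIV) (hR : T_RD2) (n : ℕ) (hn : 1 ≤ n)
    (ε : ℝ) (hε : 0 < ε) (hl : ε < rad 2) (N : ℤ)
    (hN : KillsN N (2 * n) (kc (CPn n) ε hε)) : (n : ℤ) ∣ 2 * N := by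
  obtain ⟨κ, h1, h2, h3⟩ := hR.2.2 ε hl
  have h0 : 0 < k2 := by
    unfold k2
    have h5 : Real.sqrt 5 < 5 := by
      have := Real.sqrt_lt_sqrt (by norm_num : (0 : ℝ) ≤ 5) (by norm_num : (5 : ℝ) < 5 ^ 2)
      rwa [Real.sqrt_sq (by norm_num)] at this
    have : 0 < 5 - Real.sqrt 5 := by linarith
    positivity
  exact hF κ (h0.trans h1) h2 (hD κ (h0.trans h1) (hG κ h1)) n hn ε hε N h3 hN

lemma killsN_iff_D (hF : T_FIN) (hG : T_GE2) (hD : T_DIV) (hR : T_RD2) (hB : T_BIN) (n : ℕ)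
    (hn : 1 ≤ n) (ho : Odd n) (ε : ℝ) (hε : 0 < ε) (h1 : rad 1 < ε) (h2 : ε < rad 2)
    (N : ℤ) : KillsN N (2 * n) (kc (CPn n) ε hε) ↔ (n : ℤ) ∣ N := by
  constructor
  · intro h
    have h3 := dvd_two_mul_D hF hG hD hR n hn ε hε h2 N h
    have hc : IsCoprime (n : ℤ) 2 := by
      have h5 : Nat.Coprime n 2 := Nat.coprime_two_right.2 ho
      exact_mod_cast Nat.isCoprime_iff_coprime.2 h5
    exact hc.dvd_of_dvd_mul_left h3
  · rintro ⟨a, rfl⟩
    have h3 := killsN_choose hB n 1 le_rfl hn ε hε h1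
    rw [Nat.choose_one_right] at h3
    unfold KillsN at h3 ⊢
    rw [mul_comm (n : ℤ) a, mul_smul, h3, smul_zero]

lemma le_fillR_D (hF : T_FIN) (hG : T_GE2) (hD : T_DIV) (hR : T_RD2) (n : ℕ) (hn : 3 ≤ n) :
    rad 2 ≤ FillR (CPn n) (2 * n) := by
  have hne : {ε : ℝ | ∃ hε : 0 < ε, Kills (2 * n) (kc (CPn n) ε hε)}.Nonempty := by
    have h2 : Module.finrank ℝ ℂ = 2 := Complex.finrank_real_complex
    have hdim : Module.finrank ℝ ℂ * n < Nat.multichoose (Module.finrank ℝ ℂ) (2 * n + 1) := by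
      rw [h2, Nat.multichoose_two]
      omega
    have hn1 : 1 ≤ n := by omega
    have hp : rad n < Real.pi / 6 := rad_lt_top hn1
    have hpp := Real.pi_pos
    have h0 : 0 < Real.pi / 6 := by positivity
    have hd0 : 2 * n ≠ 0 := by omega
    have hb : Bounds (PP ℂ n) (2 * n) (Real.pi / 6) :=
      bounds_of_nullhomotopic hd0 h0 (nullhomotopic (𝕜 := ℂ) hn1 hn1 hdim h0 hp)
    obtain ⟨h0', hk⟩ := hb
    exact ⟨Real.pi / 6, h0', hk⟩
  refine le_csInf hne ?_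
  rintro ε ⟨hε, h⟩
  by_contra hlt
  have h3 : (n : ℤ) ∣ 2 * 1 := dvd_two_mul_D hF hG hD hR n (by omega) ε hε (not_le.1 hlt) 1 (by
    unfold KillsN
    rw [one_smul]
    exact h)
  have h4 : (n : ℤ) ≤ 2 * 1 := Int.le_of_dvd (by norm_num) h3
  omega

lemma rad_one_lt_two (hR : T_RD2) : rad 1 < rad 2 := by
  rw [hR.1, hR.2.1, rad_one]
  have h5 : (0 : ℝ) < Real.sqrt 5 := Real.sqrt_pos.2 (by norm_num)
  have h53 : Real.sqrt 5 < 3 := by
    have := Real.sqrt_lt_sqrt (by norm_num : (0 : ℝ) ≤ 5) (by norm_num : (5 : ℝ) < 3 ^ 2)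
    rwa [Real.sqrt_sq (by norm_num)] at this
  have h51 : 1 ≤ Real.sqrt 5 := by
    rw [show (1 : ℝ) = Real.sqrt 1 by simp]
    exact Real.sqrt_le_sqrt (by norm_num)
  have hinv : 1 / 3 < (Real.sqrt 5)⁻¹ := by
    rw [one_div]
    exact (inv_lt_inv₀ (by norm_num) h5).2 h53
  have hinv1 : (Real.sqrt 5)⁻¹ ≤ 1 := inv_le_one_of_one_le₀ h51
  have h : Real.arccos (-(1 / 3)) < Real.arccos (-(Real.sqrt 5)⁻¹) :=
    Real.strictAntiOn_arccos (by constructor <;> linarith) (by constructor <;> norm_num)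
      (by linarith)
  linarith

end Pool.Agent.H58.FL
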