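import Pool.Agent.H58.FL.DefsB

/-!
MP_6a7a6f_gt, order of the fundamental class of complex projective spaces in the neighbourhoods
of the Kuratowski image: targets of part B (board flc_modules).
-/

open Topology

namespace Pool.Agent.H58.FL

open Pool.Agent.H59 Pool.Agent.H48.FR

noncomputable section

/-! ## H. Homology -/

/-- HTP: homotopic maps. -/
def T_HTP : Prop := ∀ (Y Z : Type) [TopologicalSpace Y] [TopologicalSpace Z] (f g : C(Y, Z)),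
  f.Homotopic g → ∀ (n : ℕ) (z : Ch ℤ n Y), IsZ z →
  ∃ b : Ch ℤ (n + 1) Z, bd ℤ n Z b = pf ℤ n f z - pf ℤ n g z

/-- HEQ: homotopy retracts. -/
def T_HEQ : Prop := ∀ (Y Z : Type) [TopologicalSpace Y] [TopologicalSpace Z] (f : C(Y, Z))
  (g : C(Z, Y)), (g.comp f).Homotopic (ContinuousMap.id Y) →
  ∀ n : ℕ, (Van n Z → Van n Y) ∧ (Cyc n Z → Cyc n Y)

/-- CTR: contractible spaces. -/
def T_CTR : Prop := ∀ (Y : Type) [TopologicalSpace Y] [ContractibleSpace Y] (n : ℕ), Van n Y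

/-- MVL: the union of two open sets. -/
def T_MVL : Prop := ∀ (Y : Type) [TopologicalSpace Y] (O₁ O₂ : Set Y), IsOpen O₁ → IsOpen O₂ →
  O₁ ∪ O₂ = Set.univ → ∀ n : ℕ, Van (n + 1) O₁ → Van (n + 1) O₂ →
  (Van n ↥(O₁ ∩ O₂) → Van (n + 1) Y) ∧ (Cyc n ↥(O₁ ∩ O₂) → Cyc (n + 1) Y)

/-- PUN: the homology of the punctured space. -/
def T_PUN : Prop := ∀ m : ℕ, (∀ n : ℕ, n ≠ m → Van n (Pn m)) ∧ Cyc m (Pn m)

/-- CPU: two open sets of the projective space. -/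
def T_CPU : Prop := ∀ n : ℕ, ∃ O₁ O₂ : Set (CPn (n + 1)), IsOpen O₁ ∧ IsOpen O₂ ∧
  O₁ ∪ O₂ = Set.univ ∧ (∀ m : ℕ, Van m (CPn n) → Van m O₁) ∧ (∀ m : ℕ, Van m O₂) ∧
  (∀ m : ℕ, Van m (Pn (2 * (n + 1))) → Van m ↥(O₁ ∩ O₂)) ∧
  (∀ m : ℕ, Cyc m (Pn (2 * (n + 1))) → Cyc m ↥(O₁ ∩ O₂))

/-- CPG: the top homology of the projective space is cyclic. -/
def T_CPG : Prop := ∀ n : ℕ, (∀ m : ℕ, 2 * n + 2 ≤ m → Van m (CPn n)) ∧ Cyc (2 * n + 1) (CPn n)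

/-- EVI: the values of the power of the phase cochain on cycles of small simplices are integers. -/
def T_EVI : Prop := ∀ (n : ℕ) (z : LL (2 * n + 1) (CPn n)), On (VS n (Real.pi / 4)) z →
  bdL (2 * n) (CPn n) z = 0 → ∃ N : ℤ, ev (2 * n) (PL (List.replicate n (ff n))) z = N

/-- GEN: a cycle with the value `1` or `-1` generates the top homology of the projective space. -/
def T_GEN : Prop := ∀ (n : ℕ), 1 ≤ n → ∀ C : Ch ℤ (2 * n + 1) (CPn n),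
  bd ℤ (2 * n) (CPn n) C = 0 → (∀ σ ∈ C.support, Set.range σ ∈ VS n (Real.pi / 4)) →
  (ev (2 * n) (PL (List.replicate n (ff n))) (vx (2 * n + 1) C) = 1 ∨
    ev (2 * n) (PL (List.replicate n (ff n))) (vx (2 * n + 1) C) = -1) →
  ∀ z : Ch ℤ (2 * n + 1) (CPn n), bd ℤ (2 * n) (CPn n) z = 0 →
  ∃ (a : ℤ) (b : Ch ℤ (2 * n + 2) (CPn n)), bd ℤ (2 * n + 1) (CPn n) b = z - a • C

/-- KIB: if `N` times the image of every cycle is a boundary then `N` times the map on homology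
is zero. -/
def T_KIB : Prop := ∀ (Y Z : Type) [TopologicalSpace Y] [TopologicalSpace Z] (f : C(Y, Z))
  (d : ℕ) (N : ℤ), (∀ z : Ch ℤ (d + 2) Y, bd ℤ (d + 1) Y z = 0 →
    ∃ b : Ch ℤ (d + 3) Z, bd ℤ (d + 2) Z b = N • pf ℤ (d + 2) f z) → KillsN N (d + 1) f

/-! ## M. Multiplication -/

/-- MLP: multiplication of polynomials. -/
def T_MLP : Prop := ∀ (j l : ℕ),
  (∀ u : Fin (j + l) → Fin 2 → ℂ, mu (j + l) u =
    ml (mu j fun i => u (Fin.castAdd l i)) (mu l fun i => u (Fin.natAdd j i))) ∧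
  (∀ (c d : ℂ) (p : Fin (j + 1) → ℂ) (w : Fin (l + 1) → ℂ),
    ml (c • p) (d • w) = (c * d) • ml p w) ∧
  (∀ (p p' : Fin (j + 1) → ℂ) (w : Fin (l + 1) → ℂ), ml (p + p') w = ml p w + ml p' w) ∧
  (Continuous fun q : (Fin (j + 1) → ℂ) × (Fin (l + 1) → ℂ) => ml q.1 q.2) ∧
  (∀ (p : Fin (j + 1) → ℂ) (w : Fin (l + 1) → ℂ) (hp : p ≠ 0) (hw : w ≠ 0),
    mP (mk p hp) (mk w hw) = mk (ml p w) (ml_ne hp hw)) ∧
  (Continuous fun q : CPn l × CPn j => mP q.2 q.1)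

/-- GEP: the map from the cube to the product of two projective spaces. -/
def T_GEP : Prop := ∀ (j l N : ℕ), 1 ≤ N →
  (Continuous (gE j l N)) ∧ Per N (gE j l N) ∧
  (∀ (ρ : Equiv.Perm (Fin j)) (τ : Equiv.Perm (Fin l)) (y : Fin (2 * (j + l)) → ℝ),
    gE j l N (fun i => y (pp (pq ρ τ) i)) = gE j l N y) ∧
  (∀ y : Fin (2 * (j + l)) → ℝ, mP (gE j l N y).2 (gE j l N y).1 = gm (j + l) N y) ∧
  (∀ (i₀ : Fin j) (y y' : Fin (2 * (j + l)) → ℝ),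
    (∀ i e, i ≠ Fin.castAdd l i₀ → y (pr i e) = y' (pr i e)) →
    (gE j l N y).1 = (gE j l N y').1)

/-- PFZ: push-forward of the chain of the subdivided cube. -/
def T_PFZ : Prop := ∀ (Y Z : Type) [TopologicalSpace Y] [TopologicalSpace Z] (d N : ℕ)
  (H : C(Fin d → ℝ, Y)) (g : C(Y, Z)), pf ℤ (d + 1) g (ZZ d N H) = ZZ d N (g.comp H)

/-- DV2: the chain of the subdivided cube is divisible by `j! l!` if `H` is invariant under
the permutations of the first `j` and of the last `l` pairs. -/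
def T_DV2 : Prop := ∀ (Y : Type) [TopologicalSpace Y] (j l N : ℕ)
  (H : C(Fin (2 * (j + l)) → ℝ, Y)),
  (∀ (ρ : Equiv.Perm (Fin j)) (τ : Equiv.Perm (Fin l)) (y : Fin (2 * (j + l)) → ℝ),
    H (fun i => y (pp (pq ρ τ) i)) = H y) →
  ∃ C : Ch ℤ (2 * (j + l) + 1) Y,
    ((j.factorial * l.factorial : ℕ) : ℤ) • C = ZZ (2 * (j + l)) N H

/-- ZZ0: the chain of the subdivided cube is zero if `H` does not depend on a pair. -/
def T_ZZ0 : Prop := ∀ (Y : Type) [TopologicalSpace Y] (n N : ℕ) (H : C(Fin (2 * n) → ℝ, Y))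
  (i₀ : Fin n), (∀ y y' : Fin (2 * n) → ℝ, (∀ i e, i ≠ i₀ → y (pr i e) = y' (pr i e)) →
    H y = H y') → ZZ (2 * n) N H = 0

/-- FU2: the fundamental cycle, with its relation to the cube. -/
def T_FU2 : Prop := ∀ (n : ℕ) (δ : ℝ), 1 ≤ n → 0 < δ → ∃ (N : ℕ) (H : C(Fin (2 * n) → ℝ, CPn n))
  (C : Ch ℤ (2 * n + 1) (CPn n)), 1 ≤ N ∧ (∀ y, H y = gm n N y) ∧
  (n.factorial : ℤ) • C = ZZ (2 * n) N H ∧
  bd ℤ (2 * n) (CPn n) C = 0 ∧ (∀ σ ∈ C.support, Set.range σ ∈ VS n δ) ∧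
  (ev (2 * n) (PL (List.replicate n (ff n))) (vx (2 * n + 1) C) = 1 ∨
    ev (2 * n) (PL (List.replicate n (ff n))) (vx (2 * n + 1) C) = -1)

/-! ## K. The contraction in families -/

/-- FAM: the abstract contraction in a family of isometric embeddings. -/
def T_FAM : Prop := ∀ (M M' B S Q : Type) [MetricSpace M] [CompactSpace M] [MetricSpace M']
  [CompactSpace M'] [TopologicalSpace B] [CompactSpace B] [T2Space B] [TopologicalSpace S]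
  [CompactSpace S] [TopologicalSpace Q] [CompactSpace Q] [Nonempty Q] (Δ : Dat M' S Q)
  (ι : B → M' → M), (Continuous fun p : B × M' => ι p.1 p.2) → (∀ b, Isometry (ι b)) →
  ∀ (ε : ℝ) (hε : 0 < ε), Δ.r / 2 < ε → ∀ g₀ g₁ : C(B × M', UE M ε),
  (∀ p, g₀ p = kf M ε hε (ι p.1 p.2)) → (∀ p, g₁ p = kf M ε hε (ι p.1 Δ.p)) →
  g₀.Homotopic g₁

/-- GSC: orthonormal frames of the space of multiples of a polynomial. -/
def T_GSC : Prop := ∀ (j l : ℕ), ∃ e : (Fin (l + 1) → ℂ) → Fin (j + 1) → Fin (j + l + 1) → ℂ,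
  (∀ i, ContinuousOn (fun w => e w i) {w | w ≠ 0}) ∧
  (∀ w, w ≠ 0 → ∀ i i', hp (e w i) (e w i') = if i = i' then 1 else 0) ∧
  (∀ w, w ≠ 0 → ∀ c : ℂ, c ≠ 0 → ∀ i, e (c • w) i = (c / ((‖c‖ : ℝ) : ℂ)) • e w i) ∧
  (∀ w, w ≠ 0 → ∀ p : Fin (j + 1) → ℂ, ∃ x : Fin (j + 1) → ℂ, ml p w = ∑ i, x i • e w i)

/-- ISO: the multiples of a polynomial form an isometric family of projective spaces. -/
def T_ISO : Prop := ∀ (j l : ℕ), ∃ (ι : CPn l → CPn j → CPn (j + l)) (A : CPn l → CPn j → CPn j),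
  (Continuous fun p : CPn l × CPn j => ι p.1 p.2) ∧
  (Continuous fun p : CPn l × CPn j => A p.1 p.2) ∧
  (∀ b, Isometry (ι b)) ∧ ∀ b x, ι b (A b x) = mP x b

/-- DAT: the data of the contraction for the projective space of dimension `j`. -/
def T_DAT : Prop := ∀ (j : ℕ) (r : ℝ), 1 ≤ j → 2 * rad j < r → r < Real.pi / 2 →
  ∃ Δ : Dat (CPn j) (Sph ℂ j) (Usc ℂ), Δ.r = r

/-- HMT: the homotopy. -/
def T_HMT : Prop := ∀ (j l : ℕ) (ε : ℝ) (hε : 0 < ε), 1 ≤ j → rad j < ε →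
  ∃ c : C(CPn l, UE (CPn (j + l)) ε), ∀ g₀ : C(CPn l × CPn j, UE (CPn (j + l)) ε),
  (∀ p, g₀ p = kf (CPn (j + l)) ε hε (mP p.2 p.1)) →
  g₀.Homotopic (c.comp ⟨Prod.fst, continuous_fst⟩)

/-- BIN: the binomial coefficients kill the top homology. -/
def T_BIN : Prop := ∀ (j l : ℕ) (ε : ℝ) (hε : 0 < ε), 1 ≤ j → rad j < ε →
  KillsN ((j + l).choose j) (2 * (j + l)) (kc (CPn (j + l)) ε hε)

/-! ## N. Numbers -/

/-- RMO: monotonicity. -/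
def T_RMO : Prop := ∀ i k : ℕ, 1 ≤ i → i ≤ k → rad i ≤ rad k

/-- GCD: the binomial coefficients up to the largest prime power dividing `n` are coprime. -/
def T_GCD : Prop := ∀ n k : ℕ, 1 ≤ n → 1 ≤ k →
  (∀ p : ℕ, p.Prime → p ∣ n → p ^ n.factorization p ≤ k) → ∀ I : AddSubgroup ℤ,
  (∀ i : ℕ, 1 ≤ i → i ≤ k → i ≤ n → ((n.choose i : ℕ) : ℤ) ∈ I) → (1 : ℤ) ∈ I

/-- FN2: the upper bound. -/
def T_FN2 : Prop := ∀ n k : ℕ, 1 ≤ n → 1 ≤ k →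
  (∀ p : ℕ, p.Prime → p ∣ n → p ^ n.factorization p ≤ k) → ∀ (ε : ℝ) (hε : 0 < ε), rad k < ε →
  Kills (2 * n) (kc (CPn n) ε hε)

end

end Pool.Agent.H58.FL
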