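import Pool.Agent.H58.FL.Targets
import Pool.Agent.H48.FR.Targets

/-!
MP_6a7a6f_gt, lower bound for the filling radius of complex projective spaces up to the level
of `rad 2`: definitions and targets of part D (board fld_modules).
-/

open Topology

namespace Pool.Agent.H58.FL

open Pool.Agent.H59 Pool.Agent.H48.FR

noncomputable section

/-- the golden ratio -/
def gr : ℝ := (1 + Real.sqrt 5) / 2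

/-- the level of `rad 2` -/
def k2 : ℝ := (5 - Real.sqrt 5) / 10

/-- the constant of the wheels with four spokes -/
def S4 : ℝ := Real.sqrt (k2 / 2)

section geo

variable {E : Type} [NormedAddCommGroup E] [InnerProductSpace ℂ E]

/-- close unit vectors -/
def Ad (a b : E) : Prop := k2 < ‖inner ℂ a b‖ ^ 2

/-- far unit vectors -/
def Fr (a b : E) : Prop := ‖inner ℂ a b‖ ^ 2 ≤ 1 - k2

/-- unit vectors, pairwise close (a list of points, also equal ones) -/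
def Cl {n : ℕ} (p : Fin n → E) : Prop := (∀ i, ‖p i‖ = 1) ∧ ∀ i j, Ad (p i) (p j)

/-- spoke of a wheel: close and far -/
def Sp (h a : E) : Prop := ‖a‖ = 1 ∧ Ad h a ∧ Fr h a

end geo

/-- NU3: numerical facts. -/
def T_NU3 : Prop :=
  (gr ^ 2 = gr + 1 ∧ 1618 / 1000 < gr ∧ gr < 16181 / 10000) ∧
  (0 < k2 ∧ 27639 / 100000 < k2 ∧ k2 < 2764 / 10000 ∧ k2 * (1 + gr ^ 2) = 1 ∧
    (1 - k2) / k2 = gr ^ 2 ∧ k2 / (1 - k2) = (gr ^ 2)⁻¹) ∧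
  (Real.cos (Real.pi / 5) = gr / 2 ∧ Real.cos (3 * Real.pi / 5) = -(gr - 1) / 2) ∧
  (Real.sqrt k2 * Real.cos (Real.pi / 10) = 1 / 2 ∧
    Real.sqrt k2 * Real.cos (Real.pi / 4) = S4) ∧
  ((3 * k2 - 1) / (2 * k2 * Real.sqrt k2) = Real.cos (7 * Real.pi / 10) ∧
    1 / (2 * Real.sqrt (1 - k2)) = Real.cos (3 * Real.pi / 10)) ∧
  (371745 / 1000000 < S4 ∧ S4 < 37175 / 100000 ∧ S4 ^ 2 = k2 / 2) ∧
  (S4 * (1 + gr ^ 2) = Real.cos (3 * Real.pi / 20) * gr ^ 2 - Real.cos (Real.pi / 20))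

/-- TR2: the phase of a triangle. -/
def T_TR2 : Prop := ∀ (E : Type) [NormedAddCommGroup E] [InnerProductSpace ℂ E] (a b c : E),
  ‖a‖ = 1 → ‖b‖ = 1 → ‖c‖ = 1 →
  (∀ κ : ℝ, 0 < κ → κ ≤ ‖inner ℂ a b‖ ^ 2 → κ ≤ ‖inner ℂ b c‖ ^ 2 → κ ≤ ‖inner ℂ c a‖ ^ 2 →
    (‖inner ℂ a b‖ ^ 2 - (1 - 2 * κ)) / (2 * κ * ‖inner ℂ a b‖) ≤ Real.cos (ar a b c)) ∧
  (Ad a b → Ad b c → Ad c a → |ar a b c| < 7 * Real.pi / 10)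

/-- OP2: two vertices of a monopole are far. -/
def T_OP2 : Prop := ∀ (E : Type) [NormedAddCommGroup E] [InnerProductSpace ℂ E] (p : Fin 4 → E),
  Cl p → mn (p 0) (p 1) (p 2) (p 3) ≠ 0 → ∀ i j, i ≠ j → Fr (p i) (p j)

/-- STI: the triangle inequality on the sphere with phases. -/
def T_STI : Prop := ∀ (E : Type) [NormedAddCommGroup E] [InnerProductSpace ℂ E] (N : ℕ)
  (u : ℕ → E) (φ : ℕ → ℝ) (k : ℤ), (∀ j, ‖u j‖ = 1) → u N = u 0 →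
  ∑ j ∈ Finset.range N, φ j = (2 * k + 1) * Real.pi →
  Real.pi ≤ ∑ j ∈ Finset.range N,
    Real.arccos ((Complex.exp (-(φ j * Complex.I)) * inner ℂ (u j) (u (j + 1))).re)

/-- WHE: a wheel with `N` spokes. -/
def T_WHE : Prop := ∀ (E : Type) [NormedAddCommGroup E] [InnerProductSpace ℂ E] (κ : ℝ) (N : ℕ)
  (h : E) (x : ℕ → E) (δ : ℝ) (k : ℤ), 0 < κ → κ < 1 → ‖h‖ = 1 → (∀ j, ‖x j‖ = 1) → x N = x 0 →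
  (∀ j, κ ≤ ‖inner ℂ h (x j)‖ ^ 2 ∧ ‖inner ℂ h (x j)‖ ^ 2 ≤ 1 - κ) →
  (∀ j, κ < ‖inner ℂ (x j) (x (j + 1))‖ ^ 2) → 0 < Real.cos δ →
  ∑ j ∈ Finset.range N, (ar h (x j) (x (j + 1)) - δ) = (2 * k + 1) * Real.pi →
  ∃ t γ : ℕ → ℝ, t N = t 0 ∧
    (∀ j, 0 < t j ∧ κ / (1 - κ) ≤ t j ^ 2 ∧ t j ^ 2 ≤ (1 - κ) / κ) ∧
    (∀ j, 0 ≤ γ j ∧ γ j ≤ Real.pi) ∧ Real.pi ≤ ∑ j ∈ Finset.range N, γ j ∧
    ∀ j, Real.sqrt κ * Real.cos δ * (1 + t j * t (j + 1)) <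
      Real.cos (ar h (x j) (x (j + 1)) - δ) + t j * t (j + 1) * Real.cos (γ j)

/-- P5A: one edge of a wheel with five spokes, first part. -/
def T_P5A : Prop := ∀ T φ γ : ℝ, 1 ≤ T → T ≤ gr ^ 2 → |φ| ≤ 4 * Real.pi / 5 → 0 ≤ γ →
  γ ≤ Real.pi → 1 / 2 * (1 + T) < Real.cos φ + T * Real.cos γ →
  γ < Real.pi / 5 + (gr - 1) * (3 * Real.pi / 5 - φ)

/-- P5B: one edge of a wheel with five spokes, second part. -/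
def T_P5B : Prop := ∀ T φ γ : ℝ, (gr ^ 2)⁻¹ ≤ T → T ≤ gr ^ 2 → |φ| ≤ 4 * Real.pi / 5 → 0 ≤ γ →
  γ ≤ Real.pi → 1 / 2 * (1 + T) < Real.cos φ + T * Real.cos γ →
  φ + γ ≤ 2 * Real.pi / 3 + 11 / 20 * (T + T⁻¹ - 2) ∧ (3 * Real.pi / 5 ≤ φ → gr ≤ T)

/-- I5: the inequality of the wheels with five spokes. -/
def T_I5 : Prop := ∀ t φ γ : ℕ → ℝ, t 5 = t 0 →
  (∀ j, 0 < t j ∧ (gr ^ 2)⁻¹ ≤ t j ^ 2 ∧ t j ^ 2 ≤ gr ^ 2) →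
  (∀ j, j < 5 → |φ j| ≤ 4 * Real.pi / 5) → ∑ j ∈ Finset.range 5, φ j = 3 * Real.pi →
  (∀ j, 0 ≤ γ j ∧ γ j ≤ Real.pi) → Real.pi ≤ ∑ j ∈ Finset.range 5, γ j →
  ¬ ∀ j, j < 5 → 1 / 2 * (1 + t j * t (j + 1)) < Real.cos (φ j) + t j * t (j + 1) * Real.cos (γ j)

/-- W5: the wheels with five spokes. -/
def T_W5 : Prop := ∀ (E : Type) [NormedAddCommGroup E] [InnerProductSpace ℂ E] (h a b c d e : E),
  ‖h‖ = 1 → Sp h a → Sp h b → Sp h c → Sp h d → Sp h e → Ad a b → Ad b c → Ad c d → Ad d e →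
  Ad e a → ar h a b + ar h b c + ar h c d + ar h d e + ar h e a < 5 * Real.pi / 2

/-- P4A: one edge of a wheel with four spokes, large phase. -/
def T_P4A : Prop := ∀ T φ γ : ℝ, 1 ≤ T → T ≤ gr ^ 2 → 3 * Real.pi / 8 ≤ φ →
  φ ≤ 19 * Real.pi / 20 → 0 ≤ γ → γ ≤ Real.pi → S4 * (1 + T) ≤ Real.cos φ + T * Real.cos γ →
  γ + 2 / 5 * φ < 11 * Real.pi / 20 ∧ (29 * Real.pi / 40 ≤ φ → γ + 2 / 5 * φ ≤ 53 * Real.pi / 100)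

/-- P4B: one edge of a wheel with four spokes, small phase. -/
def T_P4B : Prop := ∀ T φ γ : ℝ, 1 ≤ T → T ≤ gr ^ 2 → 3 * Real.pi / 20 ≤ φ →
  φ ≤ 3 * Real.pi / 8 → 0 ≤ γ → γ ≤ Real.pi → S4 * (1 + T) ≤ Real.cos φ + T * Real.cos γ →
  γ + 2 / 5 * φ < 73 * Real.pi / 120

/-- P4C: one edge of a wheel with four spokes, sum of the angles. -/
def T_P4C : Prop := ∀ T φ γ : ℝ, (gr ^ 2)⁻¹ ≤ T → T ≤ gr ^ 2 → 3 * Real.pi / 20 ≤ φ →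
  φ ≤ 19 * Real.pi / 20 → 0 ≤ γ → γ ≤ Real.pi → S4 * (1 + T) ≤ Real.cos φ + T * Real.cos γ →
  φ + γ < 7 * Real.pi / 6 ∧ (gr⁻¹ ≤ T → T ≤ gr → φ + γ < 73 * Real.pi / 90) ∧
  (T ≤ 1 → φ < 7 * Real.pi / 12)

/-- I4: the inequality of the wheels with four spokes. -/
def T_I4 : Prop := ∀ t φ γ : ℕ → ℝ, t 4 = t 0 →
  (∀ j, 0 < t j ∧ (gr ^ 2)⁻¹ ≤ t j ^ 2 ∧ t j ^ 2 ≤ gr ^ 2) →
  (∀ j, j < 4 → 3 * Real.pi / 20 ≤ φ j ∧ φ j ≤ 19 * Real.pi / 20) →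
  ∑ j ∈ Finset.range 4, φ j = 3 * Real.pi →
  (∀ j, 0 ≤ γ j ∧ γ j ≤ Real.pi) → Real.pi ≤ ∑ j ∈ Finset.range 4, γ j →
  ¬ ∀ j, j < 4 → S4 * (1 + t j * t (j + 1)) ≤ Real.cos (φ j) + t j * t (j + 1) * Real.cos (γ j)

/-- W4: the wheels with four spokes. -/
def T_W4 : Prop := ∀ (E : Type) [NormedAddCommGroup E] [InnerProductSpace ℂ E] (h a b c d : E),
  ‖h‖ = 1 → Sp h a → Sp h b → Sp h c → Sp h d → Ad a b → Ad b c → Ad c d → Ad d a →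
  ar h a b + ar h b c + ar h c d + ar h d a < 2 * Real.pi

/-- MN4: the monopole number of four pairwise close points. -/
def T_MN4 : Prop := ∀ (E : Type) [NormedAddCommGroup E] [InnerProductSpace ℂ E],
  (∀ p : Fin 3 → E, Cl p → ar (p 1) (p 0) (p 2) = -ar (p 0) (p 1) (p 2) ∧
    ar (p 0) (p 2) (p 1) = -ar (p 0) (p 1) (p 2) ∧ ar (p 1) (p 2) (p 0) = ar (p 0) (p 1) (p 2) ∧
    ar (p 2) (p 0) (p 1) = ar (p 0) (p 1) (p 2) ∧ ar (p 2) (p 1) (p 0) = -ar (p 0) (p 1) (p 2) ∧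
    |ar (p 0) (p 1) (p 2)| < 7 * Real.pi / 10) ∧
  (∀ p : Fin 4 → E, Cl p → (mn (p 0) (p 1) (p 2) (p 3) = 0 ∨ mn (p 0) (p 1) (p 2) (p 3) = 1 ∨
      mn (p 0) (p 1) (p 2) (p 3) = -1) ∧
    mn (p 1) (p 0) (p 2) (p 3) = -mn (p 0) (p 1) (p 2) (p 3) ∧
    mn (p 0) (p 2) (p 1) (p 3) = -mn (p 0) (p 1) (p 2) (p 3) ∧
    mn (p 0) (p 1) (p 3) (p 2) = -mn (p 0) (p 1) (p 2) (p 3)) ∧
  (∀ a b c d e : E, mn b c d e - mn a c d e + mn a b d e - mn a b c e + mn a b c d = 0)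

/-- R5A: four monopoles around a hub are impossible. -/
def T_R5A : Prop := ∀ (E : Type) [NormedAddCommGroup E] [InnerProductSpace ℂ E] (p : Fin 5 → E),
  Cl p → mn (p 0) (p 1) (p 2) (p 3) ≠ 0 → mn (p 0) (p 1) (p 2) (p 4) ≠ 0 →
  mn (p 0) (p 1) (p 3) (p 4) ≠ 0 → mn (p 0) (p 2) (p 3) (p 4) ≠ 0 → False

/-- R5: the exchange property. -/
def T_R5 : Prop := ∀ (E : Type) [NormedAddCommGroup E] [InnerProductSpace ℂ E] (p : Fin 5 → E),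
  Cl p → mn (p 0) (p 1) (p 2) (p 3) ≠ 0 →
  (mn (p 4) (p 1) (p 2) (p 3) ≠ 0 ∧ mn (p 0) (p 4) (p 2) (p 3) = 0 ∧
    mn (p 0) (p 1) (p 4) (p 3) = 0 ∧ mn (p 0) (p 1) (p 2) (p 4) = 0) ∨
  (mn (p 4) (p 1) (p 2) (p 3) = 0 ∧ mn (p 0) (p 4) (p 2) (p 3) ≠ 0 ∧
    mn (p 0) (p 1) (p 4) (p 3) = 0 ∧ mn (p 0) (p 1) (p 2) (p 4) = 0) ∨
  (mn (p 4) (p 1) (p 2) (p 3) = 0 ∧ mn (p 0) (p 4) (p 2) (p 3) = 0 ∧
    mn (p 0) (p 1) (p 4) (p 3) ≠ 0 ∧ mn (p 0) (p 1) (p 2) (p 4) = 0) ∨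
  (mn (p 4) (p 1) (p 2) (p 3) = 0 ∧ mn (p 0) (p 4) (p 2) (p 3) = 0 ∧
    mn (p 0) (p 1) (p 4) (p 3) = 0 ∧ mn (p 0) (p 1) (p 2) (p 4) ≠ 0)

/-- PEN: no pentagons. -/
def T_PEN : Prop := ∀ (E : Type) [NormedAddCommGroup E] [InnerProductSpace ℂ E] (p : Fin 6 → E),
  Cl p → mn (p 5) (p 0) (p 1) (p 3) ≠ 0 → mn (p 5) (p 1) (p 2) (p 4) ≠ 0 →
  mn (p 5) (p 2) (p 3) (p 0) ≠ 0 → mn (p 5) (p 3) (p 4) (p 1) ≠ 0 →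
  mn (p 5) (p 4) (p 0) (p 2) ≠ 0 → False

/-- HEX: no hexagons. -/
def T_HEX : Prop := ∀ (E : Type) [NormedAddCommGroup E] [InnerProductSpace ℂ E] (p : Fin 6 → E),
  Cl p → mn (p 0) (p 1) (p 2) (p 3) ≠ 0 → mn (p 1) (p 2) (p 3) (p 4) ≠ 0 →
  mn (p 2) (p 3) (p 4) (p 5) ≠ 0 → mn (p 3) (p 4) (p 5) (p 0) ≠ 0 →
  mn (p 4) (p 5) (p 0) (p 1) ≠ 0 → mn (p 5) (p 0) (p 1) (p 2) ≠ 0 → False

/-- TTT: no two triangles. -/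
def T_TTT : Prop := ∀ (E : Type) [NormedAddCommGroup E] [InnerProductSpace ℂ E] (p : Fin 6 → E),
  Cl p → mn (p 0) (p 1) (p 2) (p 3) ≠ 0 → mn (p 0) (p 1) (p 2) (p 4) ≠ 0 →
  mn (p 0) (p 1) (p 2) (p 5) ≠ 0 → mn (p 0) (p 3) (p 4) (p 5) ≠ 0 →
  mn (p 1) (p 3) (p 4) (p 5) ≠ 0 → mn (p 2) (p 3) (p 4) (p 5) ≠ 0 → False

/-- SX: six points. -/
def T_SX : Prop := ∀ (E : Type) [NormedAddCommGroup E] [InnerProductSpace ℂ E] (p : Fin 6 → E),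
  Cl p → mn (p 0) (p 2) (p 3) (p 4) ≠ 0 → mn (p 1) (p 2) (p 3) (p 4) ≠ 0 →
  mn (p 0) (p 1) (p 2) (p 5) = 0

/-- CL6: clusters from the exchange property and the property of six points. -/
def T_CL6 : Prop := ∀ (X : Type) (S : Set X) (m : X → X → X → X → ℤ),
  (∀ x ∈ S, ∀ y ∈ S, ∀ z ∈ S, ∀ w ∈ S, m y x z w = -m x y z w ∧ m x z y w = -m x y z w ∧
    m x y w z = -m x y z w ∧ |m x y z w| ≤ 1) →
  (∀ x ∈ S, ∀ y ∈ S, ∀ z ∈ S, ∀ w ∈ S, ∀ v ∈ S,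
    m y z w v - m x z w v + m x y w v - m x y z v + m x y z w = 0) →
  (∀ x ∈ S, ∀ y ∈ S, ∀ z ∈ S, ∀ w ∈ S, ∀ v ∈ S, m x y z w ≠ 0 →
    (m v y z w ≠ 0 ∧ m x v z w = 0 ∧ m x y v w = 0 ∧ m x y z v = 0) ∨
    (m v y z w = 0 ∧ m x v z w ≠ 0 ∧ m x y v w = 0 ∧ m x y z v = 0) ∨
    (m v y z w = 0 ∧ m x v z w = 0 ∧ m x y v w ≠ 0 ∧ m x y z v = 0) ∨
    (m v y z w = 0 ∧ m x v z w = 0 ∧ m x y v w = 0 ∧ m x y z v ≠ 0)) →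
  (∀ v ∈ S, ∀ w ∈ S, ∀ a ∈ S, ∀ b ∈ S, ∀ c ∈ S, ∀ z ∈ S, m v a b c ≠ 0 → m w a b c ≠ 0 →
    m v w a z = 0) →
  (∃ x ∈ S, ∃ y ∈ S, ∃ z ∈ S, ∃ w ∈ S, m x y z w ≠ 0) →
  ∃ c : X → Fin 4, ∀ x ∈ S, ∀ y ∈ S, ∀ z ∈ S, ∀ w ∈ S, m x y z w = sg4 (c x) (c y) (c z) (c w)

/-- GE2: clusters at all levels above the level of `rad 2`. -/
def T_GE2 : Prop := ∀ κ : ℝ, k2 < κ → Clu κ

/-- RD2: the number `rad 2`. -/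
def T_RD2 : Prop := rad 2 = Real.arccos (2 * k2 - 1) / 4 ∧ 2 * k2 - 1 = -(Real.sqrt 5)⁻¹ ∧
  ∀ ε : ℝ, ε < rad 2 → ∃ κ : ℝ, k2 < κ ∧ κ ≤ 1 ∧ ε < Real.arccos (2 * κ - 1) / 4

end

end Pool.Agent.H58.FL
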